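import Mathlib

set_option autoImplicit false

/-!
Coding lemmas: from closure under one function on finite sets to closure under countably many
finitary functions on lists; enumerations of ordinals; hulls.
-/

namespace Pool.Agent.Lib53.Chang

open Cardinal Ordinal Set

/-- the ordinal `κ⁺` -/
noncomputable abbrev K1 (κ : Cardinal.{0}) : Ordinal.{0} := (Order.succ κ).ord
/-- the ordinal `κ⁺⁺` -/
noncomputable abbrev K2 (κ : Cardinal.{0}) : Ordinal.{0} := (Order.succ (Order.succ κ)).ord
/-- the ordinal `κ⁺⁺⁺` -/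
noncomputable abbrev K3 (κ : Cardinal.{0}) : Ordinal.{0} :=
  (Order.succ (Order.succ (Order.succ κ))).ord

/-- the Chang type transfer principle of the problem -/
def CC (κ : Cardinal.{0}) : Prop :=
  ∀ f : Finset Ordinal.{0} → Ordinal.{0},
    (∀ s : Finset Ordinal.{0}, (∀ a ∈ s, a < K3 κ) → f s < K3 κ) →
    ∃ X : Set Ordinal.{0}, X ⊆ Set.Iio (K3 κ) ∧
      (∀ s : Finset Ordinal.{0}, (∀ a ∈ s, a ∈ X) → f s ∈ X) ∧
      Cardinal.mk X = Cardinal.lift.{1} (Order.succ κ) ∧
      Cardinal.mk ↥(X ∩ Set.Iio (K2 κ)) = Cardinal.lift.{1} κ ∧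
      Set.Iio κ.ord ⊆ X

/-- natural number coded by a finite ordinal -/
noncomputable def natOf (o : Ordinal.{0}) : ℕ := Cardinal.toNat o.card

@[simp] theorem natOf_natCast (n : ℕ) : natOf (n : Ordinal.{0}) = n := by
  simp [natOf]

/-- the element with index `j` of the sorted list of `S` -/
noncomputable def pick (S : Finset Ordinal.{0}) (j : ℕ) : Ordinal.{0} := (S.sort (· ≤ ·)).getD j 0

/-- the list coded by the pattern `p` over `S` -/
noncomputable def decPat (p : List (ℕ ⊕ ℕ)) (S : Finset Ordinal.{0}) : List Ordinal.{0} :=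
  p.map (fun x => match x with
    | Sum.inl n => (n : Ordinal.{0})
    | Sum.inr j => pick S j)

/-- the list coded by a finite set -/
noncomputable def decSet (s : Finset Ordinal.{0}) : List Ordinal.{0} := by
  classical
  exact decPat ((Encodable.decode (α := List (ℕ ⊕ ℕ))
    ((s.filter (· < Ordinal.omega0)).sup natOf)).getD []) (s.filter (Ordinal.omega0 ≤ ·))

theorem pick_mem_or (S : Finset Ordinal.{0}) (j : ℕ) : pick S j ∈ S ∨ pick S j = 0 := by
  unfold pick
  by_cases h : j < (S.sort (· ≤ ·)).length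
  · left
    rw [List.getD_eq_getElem _ _ h]
    exact (Finset.mem_sort _).1 (List.getElem_mem h)
  · right
    rw [List.getD_eq_default]
    omega

theorem decSet_lt {κ : Cardinal.{0}} (hκ : Cardinal.aleph0 ≤ κ) (s : Finset Ordinal.{0})
    (hs : ∀ a ∈ s, a < K3 κ) : ∀ a ∈ decSet s, a < K3 κ := by
  classical
  have hω : ∀ n : ℕ, (n : Ordinal.{0}) < K3 κ := by
    intro n
    have : Cardinal.aleph0 ≤ Order.succ (Order.succ (Order.succ κ)) :=
      hκ.trans ((Order.le_succ _).trans ((Order.le_succ _).trans (Order.le_succ _)))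
    rw [Cardinal.lt_ord, Ordinal.card_nat]
    exact (Cardinal.natCast_lt_aleph0).trans_le this
  intro a ha
  unfold decSet decPat at ha
  rw [List.mem_map] at ha
  obtain ⟨x, -, rfl⟩ := ha
  rcases x with n | j
  · exact hω n
  · rcases pick_mem_or (s.filter (Ordinal.omega0 ≤ ·)) j with h | h
    · exact hs _ (Finset.mem_filter.1 h).1
    · simp only [h]
      exact_mod_cast hω 0

theorem exists_code (l : List Ordinal.{0}) :
    ∃ s : Finset Ordinal.{0}, decSet s = l ∧ ∀ a ∈ s, a ∈ l ∨ a < Ordinal.omega0 := by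
  classical
  set S : Finset Ordinal.{0} := l.toFinset.filter (Ordinal.omega0 ≤ ·) with hS
  set p : List (ℕ ⊕ ℕ) := l.map (fun a => if a < Ordinal.omega0 then Sum.inl (natOf a)
    else Sum.inr ((S.sort (· ≤ ·)).idxOf a)) with hp
  set t : ℕ := Encodable.encode p with ht
  refine ⟨insert (t : Ordinal.{0}) S, ?_, ?_⟩
  · have h1 : (insert (t : Ordinal.{0}) S).filter (· < Ordinal.omega0) = {(t : Ordinal.{0})} := by
      ext a
      simp only [Finset.mem_filter, Finset.mem_insert, Finset.mem_singleton]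
      constructor
      · rintro ⟨h | h, h'⟩
        · exact h
        · exact absurd (Finset.mem_filter.1 h).2 (not_le.2 h')
      · rintro rfl
        exact ⟨Or.inl rfl, Ordinal.natCast_lt_omega0 t⟩
    have h2 : (insert (t : Ordinal.{0}) S).filter (Ordinal.omega0 ≤ ·) = S := by
      ext a
      simp only [Finset.mem_filter, Finset.mem_insert]
      constructor
      · rintro ⟨h | h, h'⟩
        · exfalso
          rw [h] at h'
          exact absurd (Ordinal.natCast_lt_omega0 t) (not_lt.2 h')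
        · exact h
      · intro h
        exact ⟨Or.inr h, (Finset.mem_filter.1 h).2⟩
    unfold decSet
    rw [h1, h2]
    simp only [Finset.sup_singleton, natOf_natCast]
    rw [ht, Encodable.encodek]
    simp only [Option.getD_some]
    unfold decPat
    rw [hp, List.map_map]
    conv_rhs => rw [← List.map_id l]
    apply List.map_congr_left
    intro a ha
    simp only [Function.comp, id]
    by_cases h : a < Ordinal.omega0
    · rw [if_pos h]
      obtain ⟨n, rfl⟩ := Ordinal.lt_omega0.1 h
      simp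
    · rw [if_neg h]
      have haS : a ∈ S := by
        rw [hS, Finset.mem_filter]
        exact ⟨List.mem_toFinset.2 ha, not_lt.1 h⟩
      have hmem : a ∈ S.sort (· ≤ ·) := by simpa using haS
      simp only [pick]
      rw [List.getD_eq_getElem _ _ (List.idxOf_lt_length_iff.2 hmem)]
      exact List.getElem_idxOf _
  · intro a ha
    rcases Finset.mem_insert.1 ha with h | h
    · right
      rw [h]
      exact Ordinal.natCast_lt_omega0 t
    · left
      exact List.mem_toFinset.1 (Finset.mem_filter.1 h).1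

/-- Closure under countably many finitary functions. -/
theorem list_of {κ : Cardinal.{0}} (hκ : Cardinal.aleph0 ≤ κ) {Q : Set Ordinal.{0} → Prop}
    (hQ : ∀ X, Q X → Set.Iio κ.ord ⊆ X)
    (h : ∀ f : Finset Ordinal.{0} → Ordinal.{0},
      (∀ s : Finset Ordinal.{0}, (∀ a ∈ s, a < K3 κ) → f s < K3 κ) →
      ∃ X : Set Ordinal.{0}, X ⊆ Set.Iio (K3 κ) ∧
        (∀ s : Finset Ordinal.{0}, (∀ a ∈ s, a ∈ X) → f s ∈ X) ∧ Q X)
    (φ : ℕ → List Ordinal.{0} → Ordinal.{0}) :
    ∃ X : Set Ordinal.{0}, X ⊆ Set.Iio (K3 κ) ∧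
      (∀ n (l : List Ordinal.{0}), (∀ a ∈ l, a ∈ X) → φ n l < K3 κ → φ n l ∈ X) ∧ Q X := by
  classical
  have h0 : (0 : Ordinal.{0}) < K3 κ := by
    have : Cardinal.aleph0 ≤ Order.succ (Order.succ (Order.succ κ)) :=
      hκ.trans ((Order.le_succ _).trans ((Order.le_succ _).trans (Order.le_succ _)))
    rw [Cardinal.lt_ord]
    simp only [Ordinal.card_zero]
    exact Cardinal.aleph0_pos.trans_le this
  let F : List Ordinal.{0} → Ordinal.{0} := fun l =>
    match l with
    | [] => 0
    | (t :: l') => if φ (natOf t) l' < K3 κ then φ (natOf t) l' else 0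
  have hF : ∀ l, F l < K3 κ := by
    intro l
    rcases l with _ | ⟨t, l'⟩
    · exact h0
    · simp only [F]
      split_ifs with h
      · exact h
      · exact h0
  obtain ⟨X, hX, hcl, hQX⟩ := h (fun s => F (decSet s)) (fun s _ => hF _)
  have h3 := hQ X hQX
  have hω : ∀ a < Ordinal.omega0, a ∈ X := by
    intro a ha
    apply h3
    have : Ordinal.omega0 ≤ κ.ord := by
      rw [← Cardinal.ord_aleph0]
      exact Cardinal.ord_le_ord.2 hκ
    exact lt_of_lt_of_le ha this
  refine ⟨X, hX, ?_, hQX⟩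
  intro n l hl hφ
  obtain ⟨s, hs, hs'⟩ := exists_code ((n : Ordinal.{0}) :: l)
  have hsX : ∀ a ∈ s, a ∈ X := by
    intro a ha
    rcases hs' a ha with h | h
    · rcases List.mem_cons.1 h with h | h
      · rw [h]
        exact hω _ (Ordinal.natCast_lt_omega0 n)
      · exact hl a h
    · exact hω a h
  have := hcl s hsX
  simp only [hs, F, natOf_natCast, if_pos hφ] at this
  exact this

/-- Closure under countably many finitary functions. -/
theorem CC.list {κ : Cardinal.{0}} (hκ : Cardinal.aleph0 ≤ κ) (h : CC κ)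
    (φ : ℕ → List Ordinal.{0} → Ordinal.{0}) :
    ∃ X : Set Ordinal.{0}, X ⊆ Set.Iio (K3 κ) ∧
      (∀ n (l : List Ordinal.{0}), (∀ a ∈ l, a ∈ X) → φ n l < K3 κ → φ n l ∈ X) ∧
      Cardinal.mk X = Cardinal.lift.{1} (Order.succ κ) ∧
      Cardinal.mk ↥(X ∩ Set.Iio (K2 κ)) = Cardinal.lift.{1} κ ∧
      Set.Iio κ.ord ⊆ X :=
  list_of hκ (Q := fun X => Cardinal.mk X = Cardinal.lift.{1} (Order.succ κ) ∧
      Cardinal.mk ↥(X ∩ Set.Iio (K2 κ)) = Cardinal.lift.{1} κ ∧
      Set.Iio κ.ord ⊆ X) (fun X hX => hX.2.2) h φ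

end Pool.Agent.Lib53.Chang
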