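import Mathlib
import Pool.Agent.Lib_helper53.Chang.Coding

set_option autoImplicit false

/-!
Bounds, pigeonhole, enumerations of ordinals and hulls.
-/

namespace Pool.Agent.Lib53.Chang

open Cardinal Ordinal Set

/-- a small set of ordinals below a regular cardinal is bounded -/
theorem exists_bound {c : Cardinal.{0}} (hc : c.IsRegular) (S : Set Ordinal.{0})
    (hS : Cardinal.mk S < Cardinal.lift.{1} c) (h : ∀ s ∈ S, s < c.ord) :
    ∃ b < c.ord, ∀ s ∈ S, s < b := by
  refine ⟨sSup ((· + 1) '' S), ?_, ?_⟩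
  · apply Ordinal.sSup_add_one_lt_of_lt_cof _ h
    rw [← Ordinal.lift_cof, hc.cof_ord]
    exact hS
  · intro s hs
    refine (lt_add_one s).trans_le (le_csSup ⟨c.ord, ?_⟩ (mem_image_of_mem _ hs))
    rintro _ ⟨t, ht, rfl⟩
    exact Order.add_one_le_of_lt (h t ht)

/-- pigeonhole principle at a regular cardinal -/
theorem pigeon {θ : Cardinal.{1}} (hθ : θ.IsRegular) {A : Set Ordinal.{0}} (hA : θ ≤ Cardinal.mk A)
    {T : Type 1} (B : Set T) (hB : Cardinal.mk B < θ) (f : Ordinal.{0} → T)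
    (hf : ∀ a ∈ A, f a ∈ B) :
    ∃ t ∈ B, θ ≤ Cardinal.mk {a : Ordinal.{0} | a ∈ A ∧ f a = t} := by
  obtain ⟨t, ht⟩ := Cardinal.infinite_pigeonhole_card
    (fun a : A => (⟨f a, hf a a.2⟩ : B)) θ hA hθ.aleph0_le (by rwa [hθ.cof_ord])
  refine ⟨t, t.2, ht.trans ?_⟩
  refine Cardinal.mk_le_of_injective (f := fun x => ⟨x.1.1, x.1.2, ?_⟩) ?_
  · have := x.2
    simp only [Set.mem_preimage, Set.mem_singleton_iff] at this
    exact congrArg Subtype.val this
  · intro x y hxy
    simp only [Subtype.mk.injEq] at hxy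
    exact Subtype.ext (Subtype.ext hxy)

/-- enumeration of an ordinal by its cardinality -/
theorem exists_enum (β : Ordinal.{0}) : ∃ e r : Ordinal.{0} → Ordinal.{0},
    (∀ j < β.card.ord, e j < β) ∧ (∀ a < β, r a < β.card.ord ∧ e (r a) = a) := by
  classical
  have h : Cardinal.mk (Set.Iio β.card.ord) = Cardinal.mk (Set.Iio β) := by
    rw [Cardinal.mk_Iio_ordinal, Cardinal.mk_Iio_ordinal, Cardinal.card_ord]
  obtain ⟨φ⟩ := Cardinal.eq.1 h
  refine ⟨fun j => if hj : j < β.card.ord then (φ ⟨j, hj⟩).1 else 0,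
    fun a => if ha : a < β then (φ.symm ⟨a, ha⟩).1 else 0, ?_, ?_⟩
  · intro j hj
    simp only [dif_pos hj]
    exact (φ ⟨j, hj⟩).2
  · intro a ha
    simp only [dif_pos ha]
    have h1 : (φ.symm ⟨a, ha⟩).1 < β.card.ord := (φ.symm ⟨a, ha⟩).2
    refine ⟨h1, ?_⟩
    simp [dif_pos h1]

/-- `en β` enumerates `Iio β` in type `β.card.ord` -/
noncomputable def en (β : Ordinal.{0}) : Ordinal.{0} → Ordinal.{0} := (exists_enum β).choose

/-- `rk β` is the inverse of `en β` -/
noncomputable def rk (β : Ordinal.{0}) : Ordinal.{0} → Ordinal.{0} :=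
  (exists_enum β).choose_spec.choose

theorem en_lt {β j : Ordinal.{0}} (h : j < β.card.ord) : en β j < β :=
  (exists_enum β).choose_spec.choose_spec.1 j h

theorem rk_lt {β a : Ordinal.{0}} (h : a < β) : rk β a < β.card.ord :=
  ((exists_enum β).choose_spec.choose_spec.2 a h).1

theorem en_rk {β a : Ordinal.{0}} (h : a < β) : en β (rk β a) = a :=
  ((exists_enum β).choose_spec.choose_spec.2 a h).2

/-! ### Hulls -/

/-- the closure of `Z` under the functions `φ n` on finite lists -/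
inductive Hull (φ : ℕ → List Ordinal.{0} → Ordinal.{0}) (Z : Set Ordinal.{0}) : Ordinal.{0} → Prop
  | base (a : Ordinal.{0}) (h : a ∈ Z) : Hull φ Z a
  | step (n : ℕ) (l : List Ordinal.{0}) (h : ∀ a ∈ l, Hull φ Z a) : Hull φ Z (φ n l)

theorem Hull.mono' {φ : ℕ → List Ordinal.{0} → Ordinal.{0}} {Z Z' : Set Ordinal.{0}}
    (h : ∀ a ∈ Z, Hull φ Z' a) {a : Ordinal.{0}} (ha : Hull φ Z a) : Hull φ Z' a := by
  induction ha with
  | base a hZ => exact h a hZ
  | step n l _ ih => exact Hull.step n l ih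

theorem Hull.mono {φ : ℕ → List Ordinal.{0} → Ordinal.{0}} {Z Z' : Set Ordinal.{0}}
    (h : Z ⊆ Z') {a : Ordinal.{0}} (ha : Hull φ Z a) : Hull φ Z' a :=
  Hull.mono' (fun a ha => Hull.base a (h ha)) ha

theorem Hull.finite {φ : ℕ → List Ordinal.{0} → Ordinal.{0}} {Z : Set Ordinal.{0}}
    {a : Ordinal.{0}} (ha : Hull φ Z a) : ∃ S : Set Ordinal.{0}, S.Finite ∧ S ⊆ Z ∧ Hull φ S a := by
  classical
  induction ha with
  | base a hZ =>
    exact ⟨{a}, Set.finite_singleton a, Set.singleton_subset_iff.2 hZ, Hull.base a rfl⟩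
  | step n l _ ih =>
    choose! S hS1 hS2 hS3 using ih
    refine ⟨⋃ a ∈ {a | a ∈ l}, S a, ?_, ?_, ?_⟩
    · exact Set.Finite.biUnion l.finite_toSet (fun a ha => hS1 a ha)
    · exact Set.iUnion₂_subset hS2
    · refine Hull.step n l (fun a ha => ?_)
      exact (hS3 a ha).mono (Set.subset_biUnion_of_mem (u := S) (s := {a | a ∈ l}) ha)

/-- shapes of terms -/
abbrev Shape (Z : Set Ordinal.{0}) : Type 1 := Z ⊕ (ℕ × ℕ)

/-- arity -/
def Arity (Z : Set Ordinal.{0}) : Shape Z → Type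
  | Sum.inl _ => Empty
  | Sum.inr p => Fin p.2

instance (Z : Set Ordinal.{0}) (s : Shape Z) : Finite (Arity Z s) := by
  rcases s with s | s
  · exact (inferInstance : Finite Empty)
  · exact (inferInstance : Finite (Fin s.2))

/-- evaluation of terms -/
noncomputable def evalT (φ : ℕ → List Ordinal.{0} → Ordinal.{0}) (Z : Set Ordinal.{0}) :
    WType (Arity Z) → Ordinal.{0}
  | WType.mk (Sum.inl z) _ => z.1
  | WType.mk (Sum.inr p) f => φ p.1 (List.ofFn (fun i : Fin p.2 => evalT φ Z (f i)))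

theorem mk_hull_le (φ : ℕ → List Ordinal.{0} → Ordinal.{0}) (Z : Set Ordinal.{0}) :
    Cardinal.mk {a | Hull φ Z a} ≤ max Cardinal.aleph0 (Cardinal.mk Z) := by
  have h1 : {a | Hull φ Z a} ⊆ Set.range (evalT φ Z) := by
    intro a ha
    induction ha with
    | base a hZ => exact ⟨WType.mk (Sum.inl ⟨a, hZ⟩) Empty.elim, by simp [evalT]⟩
    | step n l _ ih =>
      have ih' : ∀ i : Fin l.length, ∃ t, evalT φ Z t = l.get i := fun i => ih _ (l.get_mem i)
      choose t ht using ih'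
      refine ⟨WType.mk (Sum.inr (n, l.length)) t, ?_⟩
      simp only [evalT, ht]
      congr 1
      exact List.ofFn_get l
  have h2 : Cardinal.mk (WType (Arity Z)) ≤ max (Cardinal.mk (Shape Z)) Cardinal.aleph0 := by
    have := WType.cardinalMk_le_max_aleph0_of_finite' (β := Arity Z)
    simpa using this
  have h3 : Cardinal.mk (Shape Z) ≤ max Cardinal.aleph0 (Cardinal.mk Z) := by
    rw [Cardinal.mk_sum]
    simp only [Cardinal.lift_uzero, Cardinal.mk_prod, Cardinal.lift_id, Cardinal.mk_nat,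
      Cardinal.aleph0_mul_aleph0, Cardinal.lift_aleph0]
    refine (Cardinal.add_le_max _ _).trans ?_
    exact max_le (max_le (le_max_right _ _) (le_max_left _ _)) (le_max_left _ _)
  calc Cardinal.mk {a | Hull φ Z a} ≤ Cardinal.mk (Set.range (evalT φ Z)) :=
        Cardinal.mk_le_mk_of_subset h1
    _ ≤ Cardinal.mk (WType (Arity Z)) := Cardinal.mk_range_le
    _ ≤ max (Cardinal.mk (Shape Z)) Cardinal.aleph0 := h2
    _ ≤ max Cardinal.aleph0 (Cardinal.mk Z) := max_le h3 (le_max_left _ _)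

end Pool.Agent.Lib53.Chang
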