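import Mathlib
import Pool.Agent.Lib_helper53.Chang.Basic

set_option autoImplicit false

/-!
The case of a small dominating number.
-/

namespace Pool.Agent.Lib53.Chang

open Cardinal Ordinal Set

/-- the conclusion of the problem -/
def CCcof (κ : Cardinal.{0}) : Prop :=
  ∀ f : Finset Ordinal.{0} → Ordinal.{0},
    (∀ s : Finset Ordinal.{0}, (∀ a ∈ s, a < K3 κ) → f s < K3 κ) →
    ∃ X : Set Ordinal.{0}, X ⊆ Set.Iio (K3 κ) ∧
      (∀ s : Finset Ordinal.{0}, (∀ a ∈ s, a ∈ X) → f s ∈ X) ∧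
      Cardinal.mk X = Cardinal.lift.{1} (Order.succ κ) ∧
      Cardinal.mk ↥(X ∩ Set.Iio (K2 κ)) = Cardinal.lift.{1} κ ∧
      Set.Iio κ.ord ⊆ X ∧
      Cardinal.aleph0 < Ordinal.cof (sSup (X ∩ Set.Iio (K1 κ)))

/-- for every function `f` there is a closed Chang set whose trace on `κ⁺` has cofinality `ν` -/
def CCcofEq (κ ν : Cardinal.{0}) : Prop :=
  ∀ f : Finset Ordinal.{0} → Ordinal.{0},
    (∀ s : Finset Ordinal.{0}, (∀ a ∈ s, a < K3 κ) → f s < K3 κ) →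
    ∃ X : Set Ordinal.{0}, X ⊆ Set.Iio (K3 κ) ∧
      (∀ s : Finset Ordinal.{0}, (∀ a ∈ s, a ∈ X) → f s ∈ X) ∧
      Cardinal.mk X = Cardinal.lift.{1} (Order.succ κ) ∧
      Cardinal.mk ↥(X ∩ Set.Iio (K2 κ)) = Cardinal.lift.{1} κ ∧
      Set.Iio κ.ord ⊆ X ∧
      Ordinal.cof (sSup (X ∩ Set.Iio (K1 κ))) = ν

theorem CCcofEq.cof {κ ν : Cardinal.{0}} (hν : Cardinal.aleph0 < ν) (h : CCcofEq κ ν) :
    CCcof κ := by
  intro f hf
  obtain ⟨X, h1, h2, h3, h4, h5, h6⟩ := h f hf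
  exact ⟨X, h1, h2, h3, h4, h5, h6 ▸ hν⟩

/-- `κ⁺⁺` functions dominate all functions from `κ⁺` to `κ⁺` modulo bounded sets -/
def DomNumberLe (κ : Cardinal.{0}) : Prop :=
  ∃ D : Ordinal.{0} → Ordinal.{0} → Ordinal.{0},
    (∀ i < K2 κ, ∀ ξ < K1 κ, D i ξ < K1 κ) ∧
    ∀ h : Ordinal.{0} → Ordinal.{0}, (∀ ξ < K1 κ, h ξ < K1 κ) →
      ∃ i < K2 κ, ∃ ε < K1 κ, ∀ ξ, ε ≤ ξ → ξ < K1 κ → h ξ ≤ D i ξ

/-- every family of `κ⁺⁺⁺` functions from `κ⁺` to `κ⁺` is dominated, modulo bounded sets, by some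
family of `κ⁺⁺` functions -/
def DomFam (κ : Cardinal.{0}) : Prop :=
  ∀ H : Ordinal.{0} → Ordinal.{0} → Ordinal.{0}, (∀ α < K3 κ, ∀ ξ < K1 κ, H α ξ < K1 κ) →
    ∃ D : Ordinal.{0} → Ordinal.{0} → Ordinal.{0},
      (∀ i < K2 κ, ∀ ξ < K1 κ, D i ξ < K1 κ) ∧
      ∀ α < K3 κ, ∃ i < K2 κ, ∃ ε < K1 κ, ∀ ξ, ε ≤ ξ → ξ < K1 κ → H α ξ ≤ D i ξ

theorem DomNumberLe.fam {κ : Cardinal.{0}} (h : DomNumberLe κ) : DomFam κ := by
  obtain ⟨D, hD1, hD2⟩ := h
  exact fun H hH => ⟨D, hD1, fun α hα => hD2 (H α) (hH α hα)⟩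

/-! ### Arithmetic of `K1, K2, K3` -/

section arith
variable {κ : Cardinal.{0}}

theorem K1_lt_K2 : K1 κ < K2 κ := Cardinal.ord_lt_ord.2 (Order.lt_succ _)
theorem K2_lt_K3 : K2 κ < K3 κ := Cardinal.ord_lt_ord.2 (Order.lt_succ _)
theorem ord_lt_K1 : κ.ord < K1 κ := Cardinal.ord_lt_ord.2 (Order.lt_succ _)
theorem K1_lt_K3 : K1 κ < K3 κ := K1_lt_K2.trans K2_lt_K3

theorem reg1 (hκ : Cardinal.aleph0 ≤ κ) : (Order.succ κ).IsRegular := Cardinal.isRegular_succ hκ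
theorem reg2 (hκ : Cardinal.aleph0 ≤ κ) : (Order.succ (Order.succ κ)).IsRegular :=
  Cardinal.isRegular_succ (hκ.trans (Order.le_succ _))
theorem reg3 (hκ : Cardinal.aleph0 ≤ κ) : (Order.succ (Order.succ (Order.succ κ))).IsRegular :=
  Cardinal.isRegular_succ ((hκ.trans (Order.le_succ _)).trans (Order.le_succ _))

theorem succ_lt_K1 (hκ : Cardinal.aleph0 ≤ κ) {a : Ordinal.{0}} (h : a < K1 κ) : a + 1 < K1 κ :=
  (Cardinal.isSuccLimit_ord (reg1 hκ).aleph0_le).add_one_lt h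
theorem succ_lt_K2 (hκ : Cardinal.aleph0 ≤ κ) {a : Ordinal.{0}} (h : a < K2 κ) : a + 1 < K2 κ :=
  (Cardinal.isSuccLimit_ord (reg2 hκ).aleph0_le).add_one_lt h
theorem succ_lt_K3 (hκ : Cardinal.aleph0 ≤ κ) {a : Ordinal.{0}} (h : a < K3 κ) : a + 1 < K3 κ :=
  (Cardinal.isSuccLimit_ord (reg3 hκ).aleph0_le).add_one_lt h

theorem card_le_of_lt_K1 {a : Ordinal.{0}} (h : a < K1 κ) : a.card ≤ κ :=
  Order.lt_succ_iff.1 (Cardinal.lt_ord.1 h)
theorem card_le_of_lt_K2 {a : Ordinal.{0}} (h : a < K2 κ) : a.card ≤ Order.succ κ :=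
  Order.lt_succ_iff.1 (Cardinal.lt_ord.1 h)
theorem card_le_of_lt_K3 {a : Ordinal.{0}} (h : a < K3 κ) : a.card ≤ Order.succ (Order.succ κ) :=
  Order.lt_succ_iff.1 (Cardinal.lt_ord.1 h)

theorem mk_Iic_le {a : Ordinal.{0}} (hκ : Cardinal.aleph0 ≤ κ) (h : a < K1 κ) :
    Cardinal.mk (Set.Iic a) ≤ Cardinal.lift.{1} κ := by
  have : Set.Iic a = Set.Iio (a + 1) := by
    ext b
    simp [Order.lt_add_one_iff]
  rw [this, Cardinal.mk_Iio_ordinal]
  exact Cardinal.lift_le.2 (card_le_of_lt_K1 (succ_lt_K1 hκ h))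

end arith

/-- the trace on `κ⁺` is an initial segment -/
theorem exists_delta {κ : Cardinal.{0}} (hκ : Cardinal.aleph0 ≤ κ) {X : Set Ordinal.{0}}
    (hen : ∀ β ∈ X, ∀ j ∈ X, β < K3 κ → j < β.card.ord → en β j ∈ X)
    (hsucc : ∀ a ∈ X, a < K3 κ → a + 1 ∈ X)
    (h2 : Cardinal.mk ↥(X ∩ Set.Iio (K2 κ)) = Cardinal.lift.{1} κ)
    (h3 : Set.Iio κ.ord ⊆ X) :
    ∃ δ < K1 κ, (∀ a, (a ∈ X ∧ a < K1 κ) ↔ a < δ) ∧ (∀ a < δ, a + 1 < δ) ∧ κ.ord ≤ δ := by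
  classical
  have hex : ∃ a < K1 κ, a ∉ X := by
    by_contra hcon
    push Not at hcon
    have h4 : Set.Iio (K1 κ) ⊆ X ∩ Set.Iio (K2 κ) :=
      fun a ha => ⟨hcon a ha, lt_trans ha K1_lt_K2⟩
    have h5 := Cardinal.mk_le_mk_of_subset h4
    rw [h2, Cardinal.mk_Iio_ordinal, Cardinal.card_ord, Cardinal.lift_le] at h5
    exact absurd h5 (not_le.2 (Order.lt_succ κ))
  obtain ⟨a0, ha0, ha0'⟩ := hex
  set δ := sInf {a | a ∉ X} with hδ
  have hδX : δ ∉ X := csInf_mem (s := {a | a ∉ X}) ⟨a0, ha0'⟩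
  have hδK : δ < K1 κ := lt_of_le_of_lt (csInf_le' ha0') ha0
  have hlt : ∀ a < δ, a ∈ X := by
    intro a ha
    by_contra hcon
    exact absurd (csInf_le' (s := {a | a ∉ X}) hcon) (not_le.2 ha)
  have hiff : ∀ a, (a ∈ X ∧ a < K1 κ) ↔ a < δ := by
    intro a
    constructor
    · rintro ⟨h5, h6⟩
      by_contra hcon
      have h7 : δ < a := lt_of_le_of_ne (not_lt.1 hcon) (fun h => hδX (h ▸ h5))
      have h8 : rk a δ ∈ X := by
        apply h3
        exact lt_of_lt_of_le (rk_lt h7) (Cardinal.ord_le_ord.2 (card_le_of_lt_K1 h6))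
      have h9 := hen a h5 _ h8 (h6.trans K1_lt_K3) (rk_lt h7)
      rw [en_rk h7] at h9
      exact hδX h9
    · intro h
      exact ⟨hlt a h, h.trans hδK⟩
  refine ⟨δ, hδK, hiff, ?_, ?_⟩
  · intro a ha
    obtain ⟨h5, h6⟩ := (hiff a).2 ha
    exact (hiff _).1 ⟨hsucc a h5 (h6.trans K1_lt_K3), succ_lt_K1 hκ h6⟩
  · by_contra hcon
    exact hδX (h3 (not_le.1 hcon))

/-- hulls of small sets are bounded -/
theorem hull_bound {c : Cardinal.{0}} (hc : c.IsRegular) (hc' : Cardinal.aleph0 < c)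
    (φ : ℕ → List Ordinal.{0} → Ordinal.{0}) (Z : Set Ordinal.{0})
    (hZ : Cardinal.mk Z < Cardinal.lift.{1} c) :
    ∃ b < c.ord, ∀ a, Hull φ Z a → a < c.ord → a < b := by
  obtain ⟨b, hb, hb'⟩ := exists_bound hc {a | Hull φ Z a ∧ a < c.ord} (by
    refine lt_of_le_of_lt (Cardinal.mk_le_mk_of_subset (t := {a | Hull φ Z a}) (fun a ha => ha.1)) ?_
    refine lt_of_le_of_lt (mk_hull_le φ Z) (max_lt ?_ hZ)
    rw [← Cardinal.lift_aleph0.{1, 0}]
    exact Cardinal.lift_lt.2 hc') (fun a ha => ha.2)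
  exact ⟨b, hb, fun a ha ha' => hb' a ⟨ha, ha'⟩⟩

/-! ### A sequence of length `ω₁` -/

/-- the recursive sequence -/
noncomputable def seqS (dd : Ordinal.{0} → Ordinal.{0}) (δ0 : Ordinal.{0}) (i : Ordinal.{0}) :
    Ordinal.{0} :=
  max (δ0 + 1) (⨆ j : Set.Iio i, dd (seqS dd δ0 j.1) + 1)
termination_by i
decreasing_by exact j.2

theorem exists_deltaStar {κ : Cardinal.{0}} (hκ : Cardinal.aleph0 ≤ κ)
    {ν : Cardinal.{0}} (hν : ν.IsRegular) (hνκ : ν ≤ κ)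
    (d : Ordinal.{0} → Ordinal.{0}) (hd : ∀ ξ < K1 κ, d ξ < K1 κ) (δ0 : Ordinal.{0})
    (hδ0 : δ0 < K1 κ) :
    ∃ δ < K1 κ, δ0 < δ ∧ Ordinal.cof δ = ν ∧ ∀ ξ < δ, d ξ < δ := by
  classical
  have hreg := reg1 hκ
  -- the bounding function
  have hdd : ∀ η, ∃ b, (η < K1 κ → b < K1 κ) ∧ η ≤ b ∧ ∀ ξ ≤ η, η < K1 κ → d ξ ≤ b := by
    intro η
    by_cases hη : η < K1 κ
    · obtain ⟨b, hb, hb'⟩ := exists_bound hreg (d '' Set.Iic η) (by
        refine lt_of_le_of_lt Cardinal.mk_image_le (lt_of_le_of_lt (mk_Iic_le hκ hη) ?_)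
        exact Cardinal.lift_lt.2 (Order.lt_succ κ)) (by
        rintro _ ⟨ξ, hξ, rfl⟩
        exact hd ξ (lt_of_le_of_lt hξ hη))
      refine ⟨max η b, fun _ => max_lt hη hb, le_max_left _ _, fun ξ hξ _ => ?_⟩
      exact (hb' _ ⟨ξ, hξ, rfl⟩).le.trans (le_max_right _ _)
    · exact ⟨η, fun h => h, le_rfl, fun _ _ h => absurd h hη⟩
  choose dd hdd1 hdd2 hdd3 using hdd
  have hmono : ∀ i j : Ordinal.{0}, j < i → dd (seqS dd δ0 j) < seqS dd δ0 i := by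
    intro i j hji
    have h1 : dd (seqS dd δ0 j) + 1 ≤ ⨆ j : Set.Iio i, dd (seqS dd δ0 j.1) + 1 :=
      le_ciSup (f := fun j : Set.Iio i => dd (seqS dd δ0 j.1) + 1) (Ordinal.bddAbove_of_small)
        ⟨j, hji⟩
    rw [seqS.eq_1 dd δ0 i]
    exact lt_of_lt_of_le (lt_add_one _) (h1.trans (le_max_right _ _))
  have hlt : ∀ i < ν.ord, seqS dd δ0 i < K1 κ := by
    intro i
    induction i using WellFoundedLT.induction with
    | ind i ih =>
      intro hi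
      rw [seqS.eq_1]
      refine max_lt (succ_lt_K1 hκ hδ0) ?_
      apply Ordinal.lift_iSup_lt_of_lt_cof
      · rw [← Ordinal.lift_cof, hreg.cof_ord, Cardinal.lift_uzero, Cardinal.mk_Iio_ordinal,
          Cardinal.lift_lt]
        exact ((Cardinal.lt_ord.1 hi).trans_le hνκ).trans (Order.lt_succ κ)
      · rintro ⟨j, hj⟩
        exact succ_lt_K1 hκ (hdd1 _ (ih j hj (lt_trans hj hi)))
  set δ := ⨆ i : Set.Iio ν.ord, seqS dd δ0 i.1 with hδ
  have hle : ∀ i < ν.ord, seqS dd δ0 i ≤ δ := by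
    intro i hi
    exact le_ciSup (f := fun i : Set.Iio ν.ord => seqS dd δ0 i.1)
      (Ordinal.bddAbove_of_small) ⟨i, hi⟩
  have hlim : Order.IsSuccLimit ν.ord := Cardinal.isSuccLimit_ord hν.aleph0_le
  have hlt2 : ∀ i < ν.ord, seqS dd δ0 i < δ := by
    intro i hi
    have h1 := hmono (i + 1) i (lt_add_one i)
    exact lt_of_le_of_lt (hdd2 _) (h1.trans_le (hle _ (hlim.add_one_lt hi)))
  refine ⟨δ, ?_, ?_, ?_, ?_⟩
  · apply Ordinal.lift_iSup_lt_of_lt_cof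
    · rw [← Ordinal.lift_cof, hreg.cof_ord, Cardinal.lift_uzero, Cardinal.mk_Iio_ordinal,
        Cardinal.lift_lt, Cardinal.card_ord]
      exact hνκ.trans_lt (Order.lt_succ κ)
    · rintro ⟨j, hj⟩
      exact hlt j hj
  · have h0 : (0 : Ordinal.{0}) < ν.ord := hν.ord_pos
    have h1 := hlt2 0 h0
    have h2 : δ0 + 1 ≤ seqS dd δ0 0 := by
      rw [seqS.eq_1]
      exact le_max_left _ _
    exact (lt_add_one δ0).trans_le (h2.trans h1.le)
  · rw [hδ, Ordinal.cof_iSup_Iio (f := fun i : Set.Iio ν.ord => seqS dd δ0 i.1)]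
    · exact hν.cof_ord
    · intro i j hij
      exact lt_of_le_of_lt (hdd2 _) (hmono j.1 i.1 hij)
    · exact hlim.isSuccPrelimit
  · intro ξ hξ
    rw [hδ] at hξ
    obtain ⟨i, hi⟩ := Ordinal.lt_iSup_iff.1 hξ
    have h1 := hdd3 (seqS dd δ0 i.1) ξ hi.le (hlt i.1 i.2)
    exact lt_of_le_of_lt h1 ((hmono (i.1 + 1) i.1 (lt_add_one _)).trans_le
      (hle _ (hlim.add_one_lt i.2)))

/-! ### The standard functions -/

/-- truncation to `K3` -/
noncomputable def clip (κ : Cardinal.{0}) (x : Ordinal.{0}) : Ordinal.{0} := by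
  classical
  exact if x < K3 κ then x else 0

theorem clip_lt {κ : Cardinal.{0}} (hκ : Cardinal.aleph0 ≤ κ) (x : Ordinal.{0}) :
    clip κ x < K3 κ := by
  unfold clip
  split_ifs with h
  · exact h
  · exact (reg3 hκ).ord_pos

theorem clip_of_lt {κ : Cardinal.{0}} {x : Ordinal.{0}} (h : x < K3 κ) : clip κ x = x := by
  unfold clip
  rw [if_pos h]

/-- the standard functions -/
noncomputable def stdF (κ : Cardinal.{0}) (f : Finset Ordinal.{0} → Ordinal.{0}) :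
    ℕ → List Ordinal.{0} → Ordinal.{0}
  | 0, l => by
    classical
    exact clip κ (f l.toFinset)
  | 1, [β, j] => clip κ (en β j)
  | 2, [β, a] => clip κ (rk β a)
  | 3, [a] => clip κ (a + 1)
  | _, _ => clip κ 0

theorem stdF_lt {κ : Cardinal.{0}} (hκ : Cardinal.aleph0 ≤ κ)
    (f : Finset Ordinal.{0} → Ordinal.{0}) (n : ℕ) (l : List Ordinal.{0}) :
    stdF κ f n l < K3 κ := by
  unfold stdF
  split <;> exact clip_lt hκ _

section closure
variable {κ : Cardinal.{0}} {f : Finset Ordinal.{0} → Ordinal.{0}} {X : Set Ordinal.{0}}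

theorem closed_f (hf : ∀ s : Finset Ordinal.{0}, (∀ a ∈ s, a < K3 κ) → f s < K3 κ)
    (hX : X ⊆ Set.Iio (K3 κ))
    (hcl : ∀ n l, (∀ a ∈ l, a ∈ X) → stdF κ f n l ∈ X) (s : Finset Ordinal.{0})
    (hs : ∀ a ∈ s, a ∈ X) : f s ∈ X := by
  classical
  have h1 := hcl 0 s.toList (fun a ha => hs a (by simpa using ha))
  have h2 : stdF κ f 0 s.toList = f s := by
    simp only [stdF]
    have h3 : s.toList.toFinset = s := Finset.toList_toFinset s
    rw [show (List.toFinset s.toList) = s from by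
      ext a
      simp]
    exact clip_of_lt (hf s (fun a ha => hX (hs a ha)))
  rwa [h2] at h1

theorem closed_en (hcl : ∀ n l, (∀ a ∈ l, a ∈ X) → stdF κ f n l ∈ X) :
    ∀ β ∈ X, ∀ j ∈ X, β < K3 κ → j < β.card.ord → en β j ∈ X := by
  intro β hβ j hj h1 h2
  have h3 := hcl 1 [β, j] (by
    intro a ha
    simp only [List.mem_cons, List.not_mem_nil, or_false] at ha
    rcases ha with rfl | rfl
    · exact hβ
    · exact hj)
  have h4 : stdF κ f 1 [β, j] = en β j := by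
    simp only [stdF]
    exact clip_of_lt ((en_lt h2).trans h1)
  rwa [h4] at h3

theorem closed_rk (hcl : ∀ n l, (∀ a ∈ l, a ∈ X) → stdF κ f n l ∈ X) :
    ∀ β ∈ X, ∀ a ∈ X, β < K3 κ → a < β → rk β a ∈ X := by
  intro β hβ j hj h1 h2
  have h3 := hcl 2 [β, j] (by
    intro a ha
    simp only [List.mem_cons, List.not_mem_nil, or_false] at ha
    rcases ha with rfl | rfl
    · exact hβ
    · exact hj)
  have h4 : stdF κ f 2 [β, j] = rk β j := by
    simp only [stdF]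
    refine clip_of_lt ((rk_lt h2).trans_le ((Cardinal.ord_card_le β).trans h1.le))
  rwa [h4] at h3

theorem closed_succ (hκ : Cardinal.aleph0 ≤ κ)
    (hcl : ∀ n l, (∀ a ∈ l, a ∈ X) → stdF κ f n l ∈ X) :
    ∀ a ∈ X, a < K3 κ → a + 1 ∈ X := by
  intro a ha h1
  have h3 := hcl 3 [a] (by
    intro b hb
    simp only [List.mem_cons, List.not_mem_nil, or_false] at hb
    rw [hb]
    exact ha)
  have h4 : stdF κ f 3 [a] = a + 1 := by
    simp only [stdF]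
    exact clip_of_lt (succ_lt_K3 hκ h1)
  rwa [h4] at h3

end closure

/-- coding of lists of ordinals below `κ⁺⁺⁺` by ordinals below `κ⁺⁺⁺` -/
theorem exists_list_code {κ : Cardinal.{0}} (hκ : Cardinal.aleph0 ≤ κ) :
    ∃ J : List Ordinal.{0} → Ordinal.{0}, (∀ l, (∀ a ∈ l, a < K3 κ) → J l < K3 κ) ∧
      ∀ l l', (∀ a ∈ l, a < K3 κ) → (∀ a ∈ l', a < K3 κ) → J l = J l' → l = l' := by
  classical
  have hinf : Infinite (Set.Iio (K3 κ)) := by
    rw [Cardinal.infinite_iff, Cardinal.mk_Iio_ordinal, Cardinal.card_ord,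
      Cardinal.aleph0_le_lift]
    exact (reg3 hκ).aleph0_le
  have h2 : Cardinal.mk (List (Set.Iio (K3 κ))) ≤ Cardinal.mk (Set.Iio (K3 κ)) :=
    (Cardinal.mk_list_eq_mk _).le
  obtain ⟨e⟩ := Cardinal.le_def _ _ |>.1 h2
  have h3 : ∀ l : List Ordinal.{0}, (∀ a ∈ l, a < K3 κ) →
      ∃ l' : List (Set.Iio (K3 κ)), l'.map Subtype.val = l := by
    intro l
    induction l with
    | nil => exact fun _ => ⟨[], rfl⟩
    | cons a l ih =>
      intro hl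
      obtain ⟨l', hl'⟩ := ih (fun b hb => hl b (List.mem_cons_of_mem _ hb))
      exact ⟨⟨a, hl a (List.mem_cons_self)⟩ :: l', by simp [hl']⟩
  choose! L hL using h3
  refine ⟨fun l => if ∀ a ∈ l, a < K3 κ then (e (L l)).1 else 0, ?_, ?_⟩
  · intro l hl
    dsimp only
    rw [if_pos hl]
    exact (e (L l)).2
  · intro l l' hl hl' h
    dsimp only at h
    rw [if_pos hl, if_pos hl'] at h
    rw [← hL l hl, ← hL l' hl', e.injective (Subtype.ext h)]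

theorem caseA_eq {κ : Cardinal.{0}} (hκ0 : Cardinal.aleph0 ≤ κ) {ν : Cardinal.{0}}
    (hν : ν.IsRegular) (hνκ : ν ≤ κ) (hD : DomFam κ) (h : CC κ) : CCcofEq κ ν := by
  classical
  intro f hf
  set φ := stdF κ f with hφ
  have hK : Cardinal.aleph0 ≤ Cardinal.lift.{1} κ := by simpa using hκ0
  -- bounds of hulls
  have hB : ∀ (l : List Ordinal.{0}) (ξ : Ordinal.{0}), ∃ b, ξ < K1 κ → (b < K1 κ ∧
      ∀ a, Hull φ ({x | x ∈ l} ∪ Set.Iic ξ) a → a < K1 κ → a < b) := by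
    intro l ξ
    by_cases hξ : ξ < K1 κ
    · obtain ⟨b, hb, hb'⟩ := hull_bound (reg1 hκ0) (hκ0.trans_lt (Order.lt_succ κ)) φ
        ({x | x ∈ l} ∪ Set.Iic ξ) (by
          refine lt_of_le_of_lt (Cardinal.mk_union_le _ _) ?_
          have h1 : Cardinal.mk {x | x ∈ l} ≤ Cardinal.lift.{1} κ :=
            (Set.Finite.lt_aleph0 l.finite_toSet).le.trans hK
          have h2 := mk_Iic_le hκ0 hξ
          refine lt_of_le_of_lt (add_le_add h1 h2) ?_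
          rw [Cardinal.add_eq_self hK, Cardinal.lift_lt]
          exact Order.lt_succ κ)
      exact ⟨b, fun _ => ⟨hb, hb'⟩⟩
    · exact ⟨0, fun h => absurd h hξ⟩
  choose B hB using hB
  have hG : ∀ (l : List Ordinal.{0}), ∃ b < K2 κ,
      ∀ a, Hull φ ({x | x ∈ l} ∪ Set.Iio (K1 κ)) a → a < K2 κ → a < b := by
    intro l
    refine hull_bound (reg2 hκ0) ((hκ0.trans_lt (Order.lt_succ κ)).trans (Order.lt_succ _)) φ
        ({x | x ∈ l} ∪ Set.Iio (K1 κ)) ?_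
    refine lt_of_le_of_lt (Cardinal.mk_union_le _ _) ?_
    have hK' : Cardinal.aleph0 ≤ Cardinal.lift.{1} (Order.succ κ) :=
      Cardinal.aleph0_le_lift.2 (hκ0.trans (Order.le_succ κ))
    have h1 : Cardinal.mk {x | x ∈ l} ≤ Cardinal.lift.{1} (Order.succ κ) :=
      (Set.Finite.lt_aleph0 l.finite_toSet).le.trans hK'
    have h2 : Cardinal.mk (Set.Iio (K1 κ)) ≤ Cardinal.lift.{1} (Order.succ κ) := by
      rw [Cardinal.mk_Iio_ordinal, Cardinal.card_ord]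
    refine lt_of_le_of_lt (add_le_add h1 h2) ?_
    rw [Cardinal.add_eq_self hK', Cardinal.lift_lt]
    exact Order.lt_succ _
  choose G hG1 hG2 using hG
  obtain ⟨J, hJ1, hJ2⟩ := exists_list_code hκ0
  obtain ⟨D, hD1, hD2⟩ := hD
    (fun α ξ => if h : ∃ l : List Ordinal.{0}, (∀ a ∈ l, a < K3 κ) ∧ J l = α then B h.choose ξ
      else 0) (by
      intro α _ ξ hξ
      split_ifs with h
      · exact (hB _ ξ hξ).1
      · exact (reg1 hκ0).ord_pos)
  have hI : ∀ l : List Ordinal.{0}, ∃ i < K2 κ, ∃ ε < K1 κ, (∀ a ∈ l, a < K3 κ) →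
      ∀ ξ, ε ≤ ξ → ξ < K1 κ → B l ξ ≤ D i ξ := by
    intro l
    by_cases hl : ∀ a ∈ l, a < K3 κ
    · obtain ⟨i, hi, ε, hε, h1⟩ := hD2 (J l) (hJ1 l hl)
      refine ⟨i, hi, ε, hε, fun _ ξ h2 h3 => ?_⟩
      have h4 := h1 ξ h2 h3
      have h5 : ∃ l' : List Ordinal.{0}, (∀ a ∈ l', a < K3 κ) ∧ J l' = J l := ⟨l, hl, rfl⟩
      rw [dif_pos h5, hJ2 _ _ h5.choose_spec.1 hl h5.choose_spec.2] at h4
      exact h4
    · exact ⟨0, (reg2 hκ0).ord_pos, 0, (reg1 hκ0).ord_pos, fun h => absurd h hl⟩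
  choose iD hI1 εD hI2 hI3 using hI
  -- the Chang set
  obtain ⟨X, hX, hXcl, hX1, hX2, hX3⟩ := h.list hκ0 (fun n l => match n with
    | 0 => G l
    | 1 => iD l
    | 2 => εD l
    | (n + 3) => φ n l)
  have hXφ : ∀ n l, (∀ a ∈ l, a ∈ X) → φ n l ∈ X := fun n l hl =>
    hXcl (n + 3) l hl (stdF_lt hκ0 f n l)
  have hXG : ∀ l : List Ordinal.{0}, (∀ a ∈ l, a ∈ X) → G l ∈ X := fun l hl =>
    hXcl 0 l hl ((hG1 l).trans K2_lt_K3)
  have hXi : ∀ l : List Ordinal.{0}, (∀ a ∈ l, a ∈ X) → iD l ∈ X := fun l hl =>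
    hXcl 1 l hl ((hI1 l).trans K2_lt_K3)
  have hXε : ∀ l : List Ordinal.{0}, (∀ a ∈ l, a ∈ X) → εD l ∈ X := fun l hl =>
    hXcl 2 l hl ((hI2 l).trans K1_lt_K3)
  obtain ⟨δX, hδX1, hδX2, -, -⟩ := exists_delta hκ0 (closed_en hXφ) (closed_succ hκ0 hXφ) hX2 hX3
  -- the diagonal function
  have hdX : ∀ ξ, ∃ b, ξ < K1 κ → (b < K1 κ ∧ ∀ j ∈ X, j < K2 κ → D j ξ < b) := by
    intro ξ
    by_cases hξ : ξ < K1 κ
    · obtain ⟨b, hb, hb'⟩ := exists_bound (reg1 hκ0) ((fun j => D j ξ) '' (X ∩ Set.Iio (K2 κ))) (by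
        refine lt_of_le_of_lt Cardinal.mk_image_le ?_
        rw [hX2, Cardinal.lift_lt]
        exact Order.lt_succ κ) (by
        rintro _ ⟨j, ⟨-, hj⟩, rfl⟩
        exact hD1 j hj ξ hξ)
      exact ⟨b, fun _ => ⟨hb, fun j hj hj' => hb' _ ⟨j, ⟨hj, hj'⟩, rfl⟩⟩⟩
    · exact ⟨0, fun h => absurd h hξ⟩
  choose dX hdX using hdX
  obtain ⟨δ, hδ1, hδ2, hδ3, hδ4⟩ := exists_deltaStar hκ0 hν hνκ dX
    (fun ξ hξ => (hdX ξ hξ).1) δX hδX1
  -- the new set
  set Y : Set Ordinal.{0} := {a | Hull φ (X ∪ Set.Iio δ) a} with hY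
  have hXY : X ⊆ Y := fun a ha => Hull.base a (Or.inl ha)
  have hδY : Set.Iio δ ⊆ Y := fun a ha => Hull.base a (Or.inr ha)
  have hYcl : ∀ n l, (∀ a ∈ l, a ∈ Y) → φ n l ∈ Y := fun n l hl => Hull.step n l hl
  have hYK : Y ⊆ Set.Iio (K3 κ) := by
    intro a ha
    rcases ha with ⟨_, h1⟩ | ⟨n, l, _⟩
    · rcases h1 with h1 | h1
      · exact hX h1
      · exact (lt_trans h1 hδ1).trans K1_lt_K3
    · exact stdF_lt hκ0 f n l
  -- finite supports
  have hsupp : ∀ a ∈ Y, ∃ l : List Ordinal.{0}, (∀ x ∈ l, x ∈ X) ∧ ∃ ξ < δ, δX ≤ ξ ∧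
      Hull φ ({x | x ∈ l} ∪ Set.Iic ξ) a := by
    intro a ha
    obtain ⟨S, hS1, hS2, hS3⟩ := Hull.finite ha
    have h1 : (insert δX (S ∩ Set.Iio δ)).Finite := (hS1.inter_of_left _).insert δX
    obtain ⟨ξ, hξ1, hξ2⟩ := Set.exists_max_image _ (fun x => x) h1 ⟨δX, Set.mem_insert _ _⟩
    refine ⟨(hS1.inter_of_left X).toFinset.toList, ?_, ξ, ?_, ?_, ?_⟩
    · intro x hx
      rw [Finset.mem_toList, Set.Finite.mem_toFinset] at hx
      exact hx.2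
    · rcases hξ1 with h2 | h2
      · rw [h2]
        exact hδ2
      · exact h2.2
    · exact hξ2 δX (Set.mem_insert _ _)
    · refine hS3.mono ?_
      intro x hx
      rcases hS2 hx with h2 | h2
      · left
        show x ∈ (hS1.inter_of_left X).toFinset.toList
        rw [Finset.mem_toList, Set.Finite.mem_toFinset]
        exact ⟨hx, h2⟩
      · right
        exact hξ2 x (Set.mem_insert_of_mem _ ⟨hx, h2⟩)
  have hYK1 : ∀ a, (a ∈ Y ∧ a < K1 κ) ↔ a < δ := by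
    intro a
    constructor
    · rintro ⟨ha, ha'⟩
      obtain ⟨l, hl, ξ, hξ1, hξ2, hξ3⟩ := hsupp a ha
      have hξK : ξ < K1 κ := hξ1.trans hδ1
      have h1 : a < B l ξ := (hB l ξ hξK).2 a hξ3 ha'
      have h2 : εD l ≤ ξ := (((hδX2 _).1 ⟨hXε l hl, hI2 l⟩).le).trans hξ2
      have h3 : B l ξ ≤ D (iD l) ξ := hI3 l (fun a ha => hX (hl a ha)) ξ h2 hξK
      have h4 : D (iD l) ξ < dX ξ := (hdX ξ hξK).2 _ (hXi l hl) (hI1 l)
      exact h1.trans (h3.trans_lt (h4.trans (hδ4 ξ hξ1)))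
    · intro ha
      exact ⟨hδY ha, lt_trans ha hδ1⟩
  have hYint : Y ∩ Set.Iio (K1 κ) = Set.Iio δ := by
    ext a
    exact hYK1 a
  have hδcard : Cardinal.mk (Set.Iio δ) ≤ Cardinal.lift.{1} κ := by
    rw [Cardinal.mk_Iio_ordinal, Cardinal.lift_le]
    exact card_le_of_lt_K1 hδ1
  refine ⟨Y, hYK, closed_f hf hYK hYcl, ?_, ?_, hX3.trans hXY, ?_⟩
  · -- cardinality
    apply le_antisymm
    · refine (mk_hull_le φ _).trans (max_le ?_ ?_)
      · exact Cardinal.aleph0_le_lift.2 (hκ0.trans (Order.le_succ κ))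
      · refine (Cardinal.mk_union_le _ _).trans ?_
        have hK' : Cardinal.aleph0 ≤ Cardinal.lift.{1} (Order.succ κ) :=
          Cardinal.aleph0_le_lift.2 (hκ0.trans (Order.le_succ κ))
        rw [← Cardinal.add_eq_self hK']
        exact add_le_add hX1.le (hδcard.trans (Cardinal.lift_le.2 (Order.le_succ κ)))
    · rw [← hX1]
      exact Cardinal.mk_le_mk_of_subset hXY
  · apply le_antisymm
    · have h1 : Y ∩ Set.Iio (K2 κ) ⊆
          (fun p : Ordinal.{0} × Ordinal.{0} => en p.1 p.2) ''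
            ((X ∩ Set.Iio (K2 κ)) ×ˢ Set.Iio δ) := by
        rintro a ⟨ha, ha'⟩
        obtain ⟨l, hl, ξ, hξ1, hξ2, hξ3⟩ := hsupp a ha
        have h2 : a < G l := by
          refine hG2 l a (hξ3.mono ?_) ha'
          refine Set.union_subset_union_right _ ?_
          intro x hx
          exact lt_of_le_of_lt hx (hξ1.trans hδ1)
        have h3 : G l ∈ X := hXG l hl
        have h4 : rk (G l) a ∈ Y := closed_rk hYcl (G l) (hXY h3) a ha
          ((hG1 l).trans K2_lt_K3) h2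
        have h5 : rk (G l) a < K1 κ :=
          (rk_lt h2).trans_le (Cardinal.ord_le_ord.2 (card_le_of_lt_K2 (hG1 l)))
        exact ⟨(G l, rk (G l) a), ⟨⟨h3, hG1 l⟩, (hYK1 _).1 ⟨h4, h5⟩⟩, en_rk h2⟩
      refine (Cardinal.mk_le_mk_of_subset h1).trans (Cardinal.mk_image_le.trans ?_)
      rw [Cardinal.mk_setProd, hX2]
      refine (mul_le_mul_right hδcard _).trans ?_
      rw [Cardinal.mul_eq_self hK]
    · rw [← hX2]
      exact Cardinal.mk_le_mk_of_subset (Set.inter_subset_inter_left _ hXY)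
  · rw [hYint]
    have hlim : Order.IsSuccLimit δ := by
      rw [← Ordinal.one_lt_cof_iff, hδ3]
      exact Cardinal.one_lt_aleph0.trans_le hν.aleph0_le
    rw [hlim.sSup_Iio]
    exact hδ3

theorem caseA {κ : Cardinal.{0}} (hκ : Cardinal.aleph0 < κ) (hD : DomFam κ) (h : CC κ) :
    CCcof κ := by
  refine (caseA_eq hκ.le Cardinal.isRegular_aleph_one ?_ hD h).cof Cardinal.aleph0_lt_aleph_one
  rw [← Cardinal.succ_aleph0]
  exact Order.succ_le_of_lt hκ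

end Pool.Agent.Lib53.Chang
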