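import Mathlib
import Pool.Agent.Lib_helper53.Chang.CaseA

set_option autoImplicit false

/-!
The case of an eventually different family.
-/

namespace Pool.Agent.Lib53.Chang

open Cardinal Ordinal Set

/-- there are `κ⁺⁺⁺` pairwise eventually different functions from `κ⁺` to `κ⁺⁺` -/
def EvDiff (κ : Cardinal.{0}) : Prop :=
  ∃ g : Ordinal.{0} → Ordinal.{0} → Ordinal.{0},
    (∀ α < K3 κ, ∀ ξ < K1 κ, g α ξ < K2 κ) ∧
    ∀ α < K3 κ, ∀ β < K3 κ, α ≠ β →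
      ∃ Δ < K1 κ, ∀ ξ, Δ ≤ ξ → ξ < K1 κ → g α ξ ≠ g β ξ

/-- freeness of small families of pairwise eventually different functions -/
theorem exists_free {c : Cardinal.{0}} (hc : c.IsRegular) (g : Ordinal.{0} → Ordinal.{0} → Ordinal.{0})
    (S : Set Ordinal.{0}) (hS : Cardinal.mk S ≤ Cardinal.lift.{1} c)
    (hg : ∀ α ∈ S, ∀ β ∈ S, α ≠ β → ∃ Δ < c.ord, ∀ ξ, Δ ≤ ξ → ξ < c.ord → g α ξ ≠ g β ξ) :
    ∃ Fr : Ordinal.{0} → Ordinal.{0}, (∀ β, Fr β < c.ord) ∧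
      ∀ α ∈ S, ∀ β ∈ S, α ≠ β → ∀ ξ < c.ord, Fr α ≤ ξ → Fr β ≤ ξ → g α ξ ≠ g β ξ := by
  classical
  have h1 : Cardinal.mk S ≤ Cardinal.mk (Set.Iio c.ord) := by
    rw [Cardinal.mk_Iio_ordinal, Cardinal.card_ord]
    exact hS
  obtain ⟨r⟩ := Cardinal.le_def _ _ |>.1 h1
  choose! Δ hΔ1 hΔ2 using hg
  have h2 : ∀ β, ∃ b < c.ord, ∀ hβ : β ∈ S, ∀ α, ∀ hα : α ∈ S, (r ⟨α, hα⟩).1 < (r ⟨β, hβ⟩).1 →
      Δ α β ≤ b := by
    intro β
    by_cases hβ : β ∈ S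
    · obtain ⟨b, hb, hb'⟩ := exists_bound hc
        ((fun x : S => Δ x.1 β) '' {x : S | (r x).1 < (r ⟨β, hβ⟩).1}) (by
          refine lt_of_le_of_lt Cardinal.mk_image_le ?_
          have h3 : Cardinal.mk {x : S | (r x).1 < (r ⟨β, hβ⟩).1} ≤
              Cardinal.mk (Set.Iio (r ⟨β, hβ⟩).1) := by
            refine Cardinal.mk_le_of_injective (f := fun x => ⟨(r x.1).1, x.2⟩) ?_
            intro x y hxy
            simp only [Subtype.mk.injEq] at hxy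
            exact Subtype.ext (r.injective (Subtype.ext hxy))
          refine lt_of_le_of_lt h3 ?_
          rw [Cardinal.mk_Iio_ordinal, Cardinal.lift_lt, ← Cardinal.lt_ord]
          exact (r ⟨β, hβ⟩).2) (by
          rintro _ ⟨x, hx, rfl⟩
          refine hΔ1 x.1 x.2 β hβ ?_
          rintro rfl
          exact lt_irrefl _ (show (r x).1 < (r x).1 from hx))
      refine ⟨b, hb, fun hβ' α hα h => (hb' _ ⟨⟨α, hα⟩, h, rfl⟩).le⟩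
    · exact ⟨0, hc.ord_pos, fun h => absurd h hβ⟩
  choose Fr hFr1 hFr2 using h2
  refine ⟨Fr, hFr1, ?_⟩
  intro α hα β hβ hne ξ hξ h3 h4
  rcases lt_trichotomy (r ⟨α, hα⟩).1 (r ⟨β, hβ⟩).1 with h5 | h5 | h5
  · exact hΔ2 α hα β hβ hne ξ ((hFr2 β hβ α hα h5).trans h4) hξ
  · exact absurd (congrArg Subtype.val (r.injective (Subtype.ext h5))) hne
  · exact (hΔ2 β hβ α hα hne.symm ξ ((hFr2 α hα β hβ h5).trans h3) hξ).symm

/-! ### The family on `κ⁺⁺` -/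

/-- a strictly increasing family of functions on `κ⁺⁺` of length `κ⁺⁺⁺` -/
noncomputable def g2 (α ξ : Ordinal.{0}) : Ordinal.{0} :=
  ⨆ β : {β : Ordinal.{0} // β < α ∧ rk α β < ξ}, g2 β.1 ξ + 1
termination_by α
decreasing_by exact β.2.1

theorem mk_g2_index (α ξ : Ordinal.{0}) :
    Cardinal.mk {β : Ordinal.{0} // β < α ∧ rk α β < ξ} ≤ Cardinal.mk (Set.Iio ξ) := by
  refine Cardinal.mk_le_of_injective (f := fun x => ⟨rk α x.1, x.2.2⟩) ?_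
  intro x y hxy
  simp only [Subtype.mk.injEq] at hxy
  have := congrArg (en α) hxy
  rw [en_rk x.2.1, en_rk y.2.1] at this
  exact Subtype.ext this

instance (α ξ : Ordinal.{0}) : Small.{0} {β : Ordinal.{0} // β < α ∧ rk α β < ξ} := by
  have : Small.{0} (Set.Iio α) := inferInstance
  exact small_subset (t := {β : Ordinal.{0} | β < α ∧ rk α β < ξ}) (s := Set.Iio α)
    (fun x (hx : x < α ∧ rk α x < ξ) => hx.1)

theorem g2_lt {κ : Cardinal.{0}} (hκ : Cardinal.aleph0 ≤ κ) (ξ : Ordinal.{0}) (hξ : ξ < K2 κ) :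
    ∀ α, g2 α ξ < K2 κ := by
  intro α
  induction α using WellFoundedLT.induction with
  | ind α ih =>
    rw [g2.eq_1]
    apply Ordinal.lift_iSup_lt_of_lt_cof
    · rw [← Ordinal.lift_cof, (reg2 hκ).cof_ord, Cardinal.lift_uzero]
      refine lt_of_le_of_lt (mk_g2_index α ξ) ?_
      rw [Cardinal.mk_Iio_ordinal, Cardinal.lift_lt, ← Cardinal.lt_ord]
      exact hξ
    · rintro ⟨β, hβ, -⟩
      exact succ_lt_K2 hκ (ih β hβ)

theorem g2_lt_g2 {α β ξ : Ordinal.{0}} (h : β < α) (h' : rk α β < ξ) : g2 β ξ < g2 α ξ := by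
  rw [g2.eq_1 α ξ]
  refine (lt_add_one _).trans_le ?_
  exact le_ciSup (f := fun β : {β : Ordinal.{0} // β < α ∧ rk α β < ξ} => g2 β.1 ξ + 1)
    (Ordinal.bddAbove_of_small) ⟨β, h, h'⟩

theorem g2_ed {κ : Cardinal.{0}} (hκ : Cardinal.aleph0 ≤ κ) (α β : Ordinal.{0}) (hα : α < K3 κ)
    (hβ : β < K3 κ) (hne : α ≠ β) :
    ∃ Δ < K2 κ, ∀ ξ, Δ ≤ ξ → ξ < K2 κ → g2 α ξ ≠ g2 β ξ := by
  have key : ∀ α β : Ordinal.{0}, α < K3 κ → β < α → 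
      ∃ Δ < K2 κ, ∀ ξ, Δ ≤ ξ → ξ < K2 κ → g2 α ξ ≠ g2 β ξ := by
    intro α β hα hβ
    refine ⟨rk α β + 1, succ_lt_K2 hκ ?_, ?_⟩
    · exact (rk_lt hβ).trans_le (Cardinal.ord_le_ord.2 (card_le_of_lt_K3 hα))
    · intro ξ h1 _
      exact (g2_lt_g2 hβ (lt_of_lt_of_le (lt_add_one _) h1)).ne'
  rcases lt_or_gt_of_ne hne with h | h
  · obtain ⟨Δ, h1, h2⟩ := key β α hβ h
    exact ⟨Δ, h1, fun ξ h3 h4 => (h2 ξ h3 h4).symm⟩
  · exact key α β hα h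

/-- a set of ordinals all of whose proper initial segments are small is small -/
theorem mk_le_of_initial {θ : Cardinal.{1}} (I : Set Ordinal.{0})
    (h : ∀ α ∈ I, Cardinal.mk ↥(I ∩ Set.Iio α) < θ) : Cardinal.mk I ≤ θ := by
  by_contra hcon
  rw [not_le] at hcon
  have h1 : θ.ord < Ordinal.type (α := I) (· < ·) := by
    refine lt_of_le_of_ne (Cardinal.ord_le.2 ?_) ?_
    · rw [Ordinal.card_type]
      exact hcon.le
    · intro h2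
      have h3 := congrArg Ordinal.card h2
      rw [Cardinal.card_ord, Ordinal.card_type] at h3
      exact absurd h3 hcon.ne
  obtain ⟨x, hx⟩ := Ordinal.typein_surj (α := I) (· < ·) h1
  have h4 := h x.1 x.2
  have h5 : Cardinal.mk ↥(I ∩ Set.Iio x.1) = θ := by
    have h6 := congrArg Ordinal.card hx
    rw [Cardinal.card_ord, Ordinal.card_typein] at h6
    rw [← h6]
    refine Cardinal.mk_congr ⟨fun y => ⟨⟨y.1, y.2.1⟩, y.2.2⟩, fun y => ⟨y.1.1, y.1.2, y.2⟩, ?_, ?_⟩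
    · intro y
      rfl
    · intro y
      rfl
  rw [h5] at h4
  exact lt_irrefl _ h4

/-- a sequence cofinal in an ordinal of countable cofinality -/
theorem exists_seq {δ : Ordinal.{0}} (h0 : 0 < δ) (h : Ordinal.cof δ ≤ Cardinal.aleph0) :
    ∃ c : ℕ → Ordinal.{0}, (∀ n, c n < δ) ∧ ∀ a < δ, ∃ n, a ≤ c n := by
  obtain ⟨s, hs, hs'⟩ := Order.exists_cof_eq (Set.Iio δ)
  rw [Ordinal.cof_Iio, ← Ordinal.lift_cof] at hs'
  have hc : s.Countable := by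
    rw [← Cardinal.le_aleph0_iff_set_countable, hs', Cardinal.lift_le_aleph0]
    exact h
  have hne : s.Nonempty := by
    obtain ⟨b, hb, -⟩ := hs ⟨0, h0⟩
    exact ⟨b, hb⟩
  obtain ⟨f, hf⟩ := hc.exists_eq_range hne
  refine ⟨fun n => (f n).1, fun n => (f n).2, ?_⟩
  intro a ha
  obtain ⟨b, hb, hb'⟩ := hs ⟨a, ha⟩
  rw [hf] at hb
  obtain ⟨n, rfl⟩ := hb
  exact ⟨n, hb'⟩

/-- injection of the trace on `κ⁺⁺` into `κ` -/
theorem exists_rho {κ : Cardinal.{0}} {W : Set Ordinal.{0}}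
    (h : Cardinal.mk W ≤ Cardinal.lift.{1} κ) :
    ∃ ρ : Ordinal.{0} → Ordinal.{0}, (∀ w ∈ W, ρ w < κ.ord) ∧ Set.InjOn ρ W := by
  classical
  have h1 : Cardinal.mk W ≤ Cardinal.mk (Set.Iio κ.ord) := by
    rw [Cardinal.mk_Iio_ordinal, Cardinal.card_ord]
    exact h
  obtain ⟨r⟩ := Cardinal.le_def _ _ |>.1 h1
  refine ⟨fun w => if hw : w ∈ W then (r ⟨w, hw⟩).1 else 0, ?_, ?_⟩
  · intro w hw
    simp only [dif_pos hw]
    exact (r ⟨w, hw⟩).2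
  · intro w hw w' hw' hww
    simp only [dif_pos hw, dif_pos hw'] at hww
    exact congrArg Subtype.val (r.injective (Subtype.ext hww))

/-- the Shelah style lemma: the trace on `κ⁺⁺` is `< κ`-directed -/
theorem trace_directed {κ : Cardinal.{0}} (hκ : κ.IsRegular) {X : Set Ordinal.{0}}
    (hX : X ⊆ Set.Iio (K3 κ))
    (hX1 : Cardinal.mk X = Cardinal.lift.{1} (Order.succ κ))
    (hX2 : Cardinal.mk ↥(X ∩ Set.Iio (K2 κ)) = Cardinal.lift.{1} κ)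
    (Fr2 : Ordinal.{0} → Ordinal.{0} → Ordinal.{0})
    (hFr1 : ∀ α β, Fr2 α β < K2 κ)
    (hFr2 : ∀ α < K3 κ, ∀ β < α, ∀ β' < α, β ≠ β' → ∀ ξ < K2 κ, Fr2 α β ≤ ξ → Fr2 α β' ≤ ξ →
      g2 β ξ ≠ g2 β' ξ)
    (hXg : ∀ α ∈ X, ∀ a ∈ X, a < K2 κ → g2 α a ∈ X)
    (hXF : ∀ α ∈ X, ∀ β ∈ X, Fr2 α β ∈ X)
    (A : Set Ordinal.{0}) (hA : A ⊆ X ∩ Set.Iio (K2 κ))
    (hA' : Cardinal.mk A < Cardinal.lift.{1} κ) :
    ∃ γ ∈ X, γ < K2 κ ∧ ∀ a ∈ A, a < γ := by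
  classical
  by_contra hcon
  push Not at hcon
  have hκ0 := hκ.aleph0_le
  obtain ⟨ρ, hρ1, hρ2⟩ := exists_rho (W := X ∩ Set.Iio (K2 κ)) hX2.le
  have hb : ∀ α, ∃ b < κ.ord, α ∈ X → ∀ a ∈ A, ρ (g2 α a) < b := by
    intro α
    by_cases hα : α ∈ X
    · obtain ⟨b, hb, hb'⟩ := exists_bound hκ ((fun a => ρ (g2 α a)) '' A)
        (lt_of_le_of_lt Cardinal.mk_image_le hA') (by
          rintro _ ⟨a, ha, rfl⟩
          exact hρ1 _ ⟨hXg α hα a (hA ha).1 (hA ha).2, g2_lt hκ0 a (hA ha).2 α⟩)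
      exact ⟨b, hb, fun _ a ha => hb' _ ⟨a, ha, rfl⟩⟩
    · exact ⟨0, hκ.ord_pos, fun h => absurd h hα⟩
  choose b hb1 hb2 using hb
  have hθ : (Cardinal.lift.{1} (Order.succ κ)).IsRegular := (reg1 hκ0).lift
  obtain ⟨t, ht, hI⟩ := pigeon hθ (A := X) hX1.ge (Set.Iio κ.ord) (by
    rw [Cardinal.mk_Iio_ordinal, Cardinal.card_ord, Cardinal.lift_lt]
    exact Order.lt_succ κ) b (fun a _ => hb1 a)
  set I : Set Ordinal.{0} := {a | a ∈ X ∧ b a = t} with hIdef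
  have hex : ∃ α ∈ I, Cardinal.lift.{1} κ ≤ Cardinal.mk ↥(I ∩ Set.Iio α) := by
    by_contra hcon2
    push Not at hcon2
    have h1 := (hI.trans (mk_le_of_initial I hcon2))
    rw [Cardinal.lift_le] at h1
    exact absurd h1 (not_le.2 (Order.lt_succ κ))
  obtain ⟨α, hαI, hα⟩ := hex
  have hc : ∀ β, ∃ a ∈ A, β ∈ X → Fr2 α β ≤ a := by
    intro β
    by_cases hβ : β ∈ X
    · obtain ⟨a, ha, ha'⟩ := hcon (Fr2 α β) (hXF α hαI.1 β hβ) (hFr1 α β)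
      exact ⟨a, ha, fun _ => ha'⟩
    · obtain ⟨a, ha, ha'⟩ := hcon (Fr2 α α) (hXF α hαI.1 α hαI.1) (hFr1 α α)
      exact ⟨a, ha, fun h => absurd h hβ⟩
  choose c hc1 hc2 using hc
  obtain ⟨a, ha, hJ⟩ := pigeon hκ.lift (A := I ∩ Set.Iio α) hα A hA' c (fun β _ => hc1 β)
  have h2 : Cardinal.mk {β | β ∈ I ∩ Set.Iio α ∧ c β = a} ≤ Cardinal.mk (Set.Iio t) := by
    refine Cardinal.mk_le_of_injective (f := fun x => ⟨ρ (g2 x.1 a), ?_⟩) ?_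
    · have h3 := hb2 x.1 x.2.1.1.1 a ha
      rw [x.2.1.1.2] at h3
      exact h3
    · intro x y hxy
      simp only [Subtype.mk.injEq] at hxy
      by_contra hne
      have hne' : x.1 ≠ y.1 := fun h => hne (Subtype.ext h)
      have h3 := hρ2 ⟨hXg x.1 x.2.1.1.1 a (hA ha).1 (hA ha).2, g2_lt hκ0 a (hA ha).2 x.1⟩
        ⟨hXg y.1 y.2.1.1.1 a (hA ha).1 (hA ha).2, g2_lt hκ0 a (hA ha).2 y.1⟩ hxy
      have h4 := hc2 x.1 x.2.1.1.1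
      have h5 := hc2 y.1 y.2.1.1.1
      rw [x.2.2] at h4
      rw [y.2.2] at h5
      exact hFr2 α (hX hαI.1) x.1 x.2.1.2 y.1 y.2.1.2 hne' a (hA ha).2 h4 h5 h3
  have h6 := hJ.trans h2
  rw [Cardinal.mk_Iio_ordinal, Cardinal.lift_le] at h6
  exact absurd (Cardinal.lt_ord.1 ht) (not_lt.2 h6)

theorem exists_bound' {a : Ordinal.{0}} (S : Set Ordinal.{0})
    (hS : Cardinal.mk S < Cardinal.lift.{1} a.cof) (h : ∀ s ∈ S, s < a) :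
    ∃ b < a, ∀ s ∈ S, s < b := by
  refine ⟨sSup ((· + 1) '' S), ?_, ?_⟩
  · apply Ordinal.sSup_add_one_lt_of_lt_cof _ h
    rw [← Ordinal.lift_cof]
    exact hS
  · intro s hs
    refine (lt_add_one s).trans_le (le_csSup ⟨a, ?_⟩ (mem_image_of_mem _ hs))
    rintro _ ⟨t, ht, rfl⟩
    exact Order.add_one_le_of_lt (h t ht)

/-- the counting argument -/
theorem no_countable_cof {κ : Cardinal.{0}} (hκ : κ.IsRegular) (hκ' : Cardinal.aleph0 < κ)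
    (hμ : ∀ μ : Cardinal.{0}, κ = Order.succ μ → μ.ord.cof ≠ Cardinal.aleph0)
    {X : Set Ordinal.{0}} (hX : X ⊆ Set.Iio (K3 κ))
    (hX1 : Cardinal.mk X = Cardinal.lift.{1} (Order.succ κ))
    (hX2 : Cardinal.mk ↥(X ∩ Set.Iio (K2 κ)) = Cardinal.lift.{1} κ)
    {δ : Ordinal.{0}} (hδ : ∀ a, (a ∈ X ∧ a < K1 κ) ↔ a < δ)
    (c : ℕ → Ordinal.{0}) (hc1 : ∀ n, c n < δ) (hc2 : ∀ a < δ, ∃ n, a ≤ c n)
    (g : Ordinal.{0} → Ordinal.{0} → Ordinal.{0})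
    (hg1 : ∀ α < K3 κ, ∀ ξ < K1 κ, g α ξ < K2 κ)
    (hXg : ∀ α ∈ X, ∀ ξ ∈ X, ξ < K1 κ → g α ξ ∈ X)
    (Fr : Ordinal.{0} → Ordinal.{0} → Ordinal.{0} → Ordinal.{0})
    (hFr1 : ∀ α γ β, Fr α γ β < K1 κ)
    (hXFr : ∀ α ∈ X, ∀ γ ∈ X, ∀ β ∈ X, Fr α γ β ∈ X)
    (hFr2 : ∀ α < K3 κ, ∀ γ < K2 κ, ∀ β β', (∃ j < γ, j < α.card.ord ∧ β = en α j) →
      (∃ j < γ, j < α.card.ord ∧ β' = en α j) → β ≠ β' → ∀ ξ < K1 κ, Fr α γ β ≤ ξ →
      Fr α γ β' ≤ ξ → g β ξ ≠ g β' ξ)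
    (hXrk : ∀ α ∈ X, ∀ β ∈ X, β < α → rk α β ∈ X)
    (hdir : ∀ A : Set Ordinal.{0}, A ⊆ X ∩ Set.Iio (K2 κ) →
      Cardinal.mk A < Cardinal.lift.{1} κ → ∃ γ ∈ X, γ < K2 κ ∧ ∀ a ∈ A, a < γ) : False := by
  classical
  have hκ0 := hκ.aleph0_le
  have hcX : ∀ n, c n ∈ X ∧ c n < K1 κ := fun n => (hδ _).2 (hc1 n)
  have hv : ∀ β ∈ X, ∀ n, g β (c n) ∈ X ∩ Set.Iio (K2 κ) := fun β hβ n =>
    ⟨hXg β hβ _ (hcX n).1 (hcX n).2, hg1 β (hX hβ) _ (hcX n).2⟩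
  set P : Cardinal.{0} → Prop := fun η => ∃ E : Set Ordinal.{0}, E ⊆ X ∩ Set.Iio (K2 κ) ∧
    Cardinal.mk E ≤ Cardinal.lift.{1} η ∧ ∃ I : Set Ordinal.{0}, I ⊆ X ∧
      Cardinal.lift.{1} (Order.succ κ) ≤ Cardinal.mk I ∧ ∀ β ∈ I, ∀ n, g β (c n) ∈ E with hP
  have hPκ : P κ := ⟨X ∩ Set.Iio (K2 κ), le_rfl, hX2.le, X, le_rfl, hX1.ge, hv⟩
  obtain ⟨η, hη, hmin⟩ := WellFounded.has_min (wellFounded_lt (α := Cardinal.{0})) {η | P η} ⟨κ, hPκ⟩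
  have hηκ : η ≤ κ := not_lt.1 (hmin κ hPκ)
  obtain ⟨E, hE, hEη, I, hI, hIκ, hIE⟩ := hη
  have hθ1 : (Cardinal.lift.{1} (Order.succ κ)).IsRegular := (reg1 hκ0).lift
  -- the cofinality of `η` is countable
  have hcof : η.ord.cof ≤ Cardinal.aleph0 := by
    by_contra hcon
    rw [not_le] at hcon
    obtain ⟨ρ, hρ1, hρ2⟩ := exists_rho (W := E) hEη
    have hb : ∀ β, ∃ b, β ∈ I → (b < η.ord ∧ ∀ n, ρ (g β (c n)) < b) := by
      intro β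
      by_cases hβ : β ∈ I
      · obtain ⟨b, hb, hb'⟩ := exists_bound' (a := η.ord) (Set.range (fun n => ρ (g β (c n)))) (by
          refine lt_of_le_of_lt (Cardinal.le_aleph0_iff_set_countable.2
            (Set.countable_range _)) ?_
          rw [← Cardinal.lift_aleph0.{1, 0}]
          exact Cardinal.lift_lt.2 hcon) (by
          rintro _ ⟨n, rfl⟩
          exact hρ1 _ (hIE β hβ n))
        exact ⟨b, fun _ => ⟨hb, fun n => hb' _ ⟨n, rfl⟩⟩⟩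
      · exact ⟨0, fun h => absurd h hβ⟩
    choose b hb using hb
    obtain ⟨t, ht, hI'⟩ := pigeon hθ1 (A := I) hIκ (Set.Iio η.ord) (by
      rw [Cardinal.mk_Iio_ordinal, Cardinal.card_ord, Cardinal.lift_lt]
      exact hηκ.trans_lt (Order.lt_succ κ)) b (fun a ha => (hb a ha).1)
    refine hmin t.card ⟨{w | w ∈ E ∧ ρ w < t}, fun w hw => hE hw.1, ?_,
      {a | a ∈ I ∧ b a = t}, fun a ha => hI ha.1, hI', ?_⟩ (Cardinal.lt_ord.1 ht)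
    · rw [← Cardinal.mk_Iio_ordinal]
      refine Cardinal.mk_le_of_injective (f := fun x => ⟨ρ x.1, x.2.2⟩) ?_
      intro x y hxy
      simp only [Subtype.mk.injEq] at hxy
      exact Subtype.ext (hρ2 x.2.1 y.2.1 hxy)
    · rintro β ⟨hβ, hβ'⟩ n
      have := (hb β hβ).2 n
      rw [hβ'] at this
      exact ⟨hIE β hβ n, this⟩
  have hηκ' : η < κ := by
    refine lt_of_le_of_ne hηκ ?_
    rintro rfl
    rw [hκ.cof_ord] at hcof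
    exact absurd hκ' (not_lt.2 hcof)
  set η' := max η Cardinal.aleph0 with hη'
  have hη'κ : η' < κ := max_lt hηκ' hκ'
  have hη'κ' : Order.succ η' < κ := by
    refine lt_of_le_of_ne (Order.succ_le_of_lt hη'κ) ?_
    intro heq
    apply hμ η' heq.symm
    rcases le_or_gt Cardinal.aleph0 η with h | h
    · rw [hη', max_eq_left h]
      refine le_antisymm hcof ?_
      rw [Ordinal.aleph0_le_cof_iff, Ordinal.one_lt_cof_iff]
      exact Cardinal.isSuccLimit_ord h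
    · rw [hη', max_eq_right h.le, Cardinal.ord_aleph0, Ordinal.cof_omega0]
  set θ : Cardinal.{1} := Cardinal.lift.{1} (Order.succ η') with hθdef
  have hθ : θ.IsRegular := (Cardinal.isRegular_succ (le_max_right _ _)).lift
  have hEθ : Cardinal.mk E < θ := by
    refine lt_of_le_of_lt hEη ?_
    rw [hθdef, Cardinal.lift_lt]
    exact (le_max_left _ _).trans_lt (Order.lt_succ _)
  -- Claim 2
  have claim2 : ∀ α ∈ X, ∀ γ ∈ X, γ < K2 κ →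
      Cardinal.mk {β | β ∈ I ∧ ∃ j < γ, j < α.card.ord ∧ β = en α j} < θ := by
    intro α hα γ hγ hγK
    by_contra hcon
    rw [not_lt] at hcon
    have hn : ∀ β, ∃ n, β ∈ X → Fr α γ β ≤ c n := by
      intro β
      by_cases hβ : β ∈ X
      · obtain ⟨n, hn⟩ := hc2 (Fr α γ β) ((hδ _).1 ⟨hXFr α hα γ hγ β hβ, hFr1 α γ β⟩)
        exact ⟨n, fun _ => hn⟩
      · exact ⟨0, fun h => absurd h hβ⟩
    choose N hN using hn
    obtain ⟨⟨n⟩, -, hJ⟩ := pigeon hθ hcon (T := ULift.{1} ℕ) Set.univ (by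
      rw [Cardinal.mk_univ, Cardinal.mk_uLift, Cardinal.mk_nat, hθdef, Cardinal.lift_lt]
      exact (le_max_right _ _).trans_lt (Order.lt_succ _)) (fun β => ⟨N β⟩) (fun _ _ => trivial)
    have h1 : Cardinal.mk {a | a ∈ {β | β ∈ I ∧ ∃ j < γ, j < α.card.ord ∧ β = en α j} ∧
        (⟨N a⟩ : ULift.{1} ℕ) = ⟨n⟩} ≤ Cardinal.mk E := by
      refine Cardinal.mk_le_of_injective (f := fun x => ⟨g x.1 (c n), hIE x.1 x.2.1.1 n⟩) ?_
      intro x y hxy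
      simp only [Subtype.mk.injEq] at hxy
      by_contra hne
      have hne' : x.1 ≠ y.1 := fun h => hne (Subtype.ext h)
      have h3 : N x.1 = n := congrArg ULift.down x.2.2
      have h4 : N y.1 = n := congrArg ULift.down y.2.2
      have h5 := hN x.1 (hI x.2.1.1)
      have h6 := hN y.1 (hI y.2.1.1)
      rw [h3] at h5
      rw [h4] at h6
      exact hFr2 α (hX hα) γ hγK x.1 y.1 x.2.1.2 y.2.1.2 hne' (c n) (hcX n).2 h5 h6 hxy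
    exact absurd (hJ.trans h1) (not_le.2 hEθ)
  -- Claim 3
  have claim3 : ∀ α ∈ X, Cardinal.mk ↥(I ∩ Set.Iio α) < θ := by
    intro α hα
    by_contra hcon
    rw [not_lt] at hcon
    obtain ⟨J, hJ1, hJ2⟩ := Cardinal.le_mk_iff_exists_subset.1 hcon
    obtain ⟨γ, hγ1, hγ2, hγ3⟩ := hdir (rk α '' J) (by
      rintro _ ⟨β, hβ, rfl⟩
      refine ⟨hXrk α hα β (hI (hJ1 hβ).1) (hJ1 hβ).2, ?_⟩
      exact (rk_lt (hJ1 hβ).2).trans_le (Cardinal.ord_le_ord.2 (card_le_of_lt_K3 (hX hα)))) (by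
      refine lt_of_le_of_lt Cardinal.mk_image_le ?_
      rw [hJ2, hθdef, Cardinal.lift_lt]
      exact hη'κ')
    have h1 : J ⊆ {β | β ∈ I ∧ ∃ j < γ, j < α.card.ord ∧ β = en α j} := by
      intro β hβ
      exact ⟨(hJ1 hβ).1, rk α β, hγ3 _ ⟨β, hβ, rfl⟩, rk_lt (hJ1 hβ).2, (en_rk (hJ1 hβ).2).symm⟩
    have h2 := Cardinal.mk_le_mk_of_subset h1
    rw [hJ2] at h2
    exact absurd h2 (not_le.2 (claim2 α hα γ hγ1 hγ2))
  -- Claim 4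
  have h1 := hIκ.trans (mk_le_of_initial I (fun α hα => claim3 α (hI hα)))
  rw [hθdef, Cardinal.lift_le] at h1
  exact absurd (hη'κ'.trans (Order.lt_succ κ)) (not_lt.2 h1)

/-- the counting argument when `κ ^ ℵ₀ = κ` -/
theorem no_countable_cof' {κ : Cardinal.{0}}
    (hμ : κ ^ Cardinal.aleph0.{0} = κ)
    {X : Set Ordinal.{0}} (hX : X ⊆ Set.Iio (K3 κ))
    (hX1 : Cardinal.mk X = Cardinal.lift.{1} (Order.succ κ))
    (hX2 : Cardinal.mk ↥(X ∩ Set.Iio (K2 κ)) = Cardinal.lift.{1} κ)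
    {δ : Ordinal.{0}} (hδ : ∀ a, (a ∈ X ∧ a < K1 κ) ↔ a < δ)
    (c : ℕ → Ordinal.{0}) (hc1 : ∀ n, c n < δ) (hc2 : ∀ a < δ, ∃ n, a ≤ c n)
    (g : Ordinal.{0} → Ordinal.{0} → Ordinal.{0})
    (hg1 : ∀ α < K3 κ, ∀ ξ < K1 κ, g α ξ < K2 κ)
    (hXg : ∀ α ∈ X, ∀ ξ ∈ X, ξ < K1 κ → g α ξ ∈ X)
    (Δ : Ordinal.{0} → Ordinal.{0} → Ordinal.{0})
    (hΔ1 : ∀ α < K3 κ, ∀ β < K3 κ, α ≠ β → Δ α β < K1 κ)
    (hXΔ : ∀ α ∈ X, ∀ β ∈ X, α ≠ β → Δ α β ∈ X)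
    (hΔ2 : ∀ α < K3 κ, ∀ β < K3 κ, α ≠ β → ∀ ξ, Δ α β ≤ ξ → ξ < K1 κ → g α ξ ≠ g β ξ) :
    False := by
  classical
  have hcX : ∀ n, c n ∈ X ∧ c n < K1 κ := fun n => (hδ _).2 (hc1 n)
  have hv : ∀ β ∈ X, ∀ n, g β (c n) ∈ X ∩ Set.Iio (K2 κ) := fun β hβ n =>
    ⟨hXg β hβ _ (hcX n).1 (hcX n).2, hg1 β (hX hβ) _ (hcX n).2⟩
  have h1 : Cardinal.mk X ≤ Cardinal.mk (ℕ → ↥(X ∩ Set.Iio (K2 κ))) := by
    refine Cardinal.mk_le_of_injective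
      (f := fun β => fun n => ⟨g β.1 (c n), hv β.1 β.2 n⟩) ?_
    intro α β h
    by_contra hne
    have hne' : α.1 ≠ β.1 := fun h => hne (Subtype.ext h)
    have h2 := hΔ1 α.1 (hX α.2) β.1 (hX β.2) hne'
    have h3 := hXΔ α.1 α.2 β.1 β.2 hne'
    obtain ⟨n, hn⟩ := hc2 _ ((hδ _).1 ⟨h3, h2⟩)
    have h4 := congrArg Subtype.val (congrFun h n)
    exact hΔ2 α.1 (hX α.2) β.1 (hX β.2) hne' (c n) hn (hcX n).2 h4
  rw [hX1, Cardinal.mk_arrow, Cardinal.lift_uzero, hX2, Cardinal.mk_nat, ← Cardinal.lift_power, hμ,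
    Cardinal.lift_le] at h1
  exact absurd h1 (not_le.2 (Order.lt_succ κ))

/-! ### The two cases together -/

theorem caseB {κ : Cardinal.{0}} (hκ : κ.IsRegular) (hκ' : Cardinal.aleph0 < κ)
    (hED : EvDiff κ) (hor : κ ^ Cardinal.aleph0.{0} = κ ∨
      ∀ μ : Cardinal.{0}, κ = Order.succ μ → μ.ord.cof ≠ Cardinal.aleph0)
    (h : CC κ) : CCcof κ := by
  classical
  have hκ0 := hκ.aleph0_le
  obtain ⟨g, hg1, hg2⟩ := hED
  choose! Δ hΔ1 hΔ2 using hg2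
  -- freeness on `κ⁺`
  have hFr : ∀ α γ, ∃ Fr : Ordinal.{0} → Ordinal.{0}, (∀ β, Fr β < K1 κ) ∧ (α < K3 κ → γ < K2 κ →
      ∀ β β', (∃ j < γ, j < α.card.ord ∧ β = en α j) →
      (∃ j < γ, j < α.card.ord ∧ β' = en α j) → β ≠ β' → ∀ ξ < K1 κ, Fr β ≤ ξ →
      Fr β' ≤ ξ → g β ξ ≠ g β' ξ) := by
    intro α γ
    by_cases hαγ : α < K3 κ ∧ γ < K2 κ
    · obtain ⟨hα, hγ⟩ := hαγ
      obtain ⟨Fr, h1, h2⟩ := exists_free (reg1 hκ0) g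
        {β | ∃ j < γ, j < α.card.ord ∧ β = en α j} (by
          have h3 : {β | ∃ j < γ, j < α.card.ord ∧ β = en α j} ⊆ en α '' Set.Iio γ := by
            rintro β ⟨j, hj, -, rfl⟩
            exact ⟨j, hj, rfl⟩
          refine (Cardinal.mk_le_mk_of_subset h3).trans (Cardinal.mk_image_le.trans ?_)
          rw [Cardinal.mk_Iio_ordinal, Cardinal.lift_le]
          exact card_le_of_lt_K2 hγ) (by
          rintro β ⟨j, hj, hj2, rfl⟩ β' ⟨j', hj', hj2', rfl⟩ hne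
          have h4 := (en_lt hj2).trans hα
          have h5 := (en_lt hj2').trans hα
          exact ⟨_, hΔ1 _ h4 _ h5 hne, hΔ2 _ h4 _ h5 hne⟩)
      refine ⟨Fr, h1, fun _ _ β β' hβ hβ' hne ξ hξ h3 h4 => h2 β hβ β' hβ' hne ξ hξ h3 h4⟩
    · refine ⟨fun _ => 0, fun _ => (reg1 hκ0).ord_pos, fun h1 h2 => absurd ⟨h1, h2⟩ hαγ⟩
  choose Fr hFr1 hFr2 using hFr
  -- freeness on `κ⁺⁺`
  have hFr' : ∀ α, ∃ Fr : Ordinal.{0} → Ordinal.{0}, (∀ β, Fr β < K2 κ) ∧ (α < K3 κ →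
      ∀ β < α, ∀ β' < α, β ≠ β' → ∀ ξ < K2 κ, Fr β ≤ ξ → Fr β' ≤ ξ → g2 β ξ ≠ g2 β' ξ) := by
    intro α
    by_cases hα : α < K3 κ
    · obtain ⟨Fr, h1, h2⟩ := exists_free (reg2 hκ0) g2 (Set.Iio α) (by
          rw [Cardinal.mk_Iio_ordinal, Cardinal.lift_le]
          exact card_le_of_lt_K3 hα) (by
          intro β hβ β' hβ' hne
          exact g2_ed hκ0 β β' (lt_trans hβ hα) (lt_trans hβ' hα) hne)
      exact ⟨Fr, h1, fun _ β hβ β' hβ' hne ξ hξ h3 h4 => h2 β hβ β' hβ' hne ξ hξ h3 h4⟩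
    · exact ⟨fun _ => 0, fun _ => (reg2 hκ0).ord_pos, fun h1 => absurd h1 hα⟩
  choose Fr2 hFr21 hFr22 using hFr'
  intro f hf
  -- the Chang set
  obtain ⟨X, hX, hXcl, hX1, hX2, hX3⟩ := h.list hκ0 (fun n l => match n, l with
    | 0, [α, ξ] => g α ξ
    | 1, [α, β] => Δ α β
    | 2, [α, ξ] => g2 α ξ
    | 3, [α, β] => Fr2 α β
    | 4, [α, γ, β] => Fr α γ β
    | (n + 5), l => stdF κ f n l
    | _, _ => 0)
  have hXφ : ∀ n l, (∀ a ∈ l, a ∈ X) → stdF κ f n l ∈ X := fun n l hl =>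
    hXcl (n + 5) l hl (stdF_lt hκ0 f n l)
  have hmem2 : ∀ α ∈ X, ∀ β ∈ X, ∀ a ∈ [α, β], a ∈ X := by
    intro α hα β hβ a ha
    simp only [List.mem_cons, List.not_mem_nil, or_false] at ha
    rcases ha with rfl | rfl
    · exact hα
    · exact hβ
  have hmem3 : ∀ α ∈ X, ∀ β ∈ X, ∀ γ ∈ X, ∀ a ∈ [α, β, γ], a ∈ X := by
    intro α hα β hβ γ hγ a ha
    simp only [List.mem_cons, List.not_mem_nil, or_false] at ha
    rcases ha with rfl | rfl | rfl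
    · exact hα
    · exact hβ
    · exact hγ
  have hXg : ∀ α ∈ X, ∀ ξ ∈ X, ξ < K1 κ → g α ξ ∈ X := fun α hα ξ hξ hξ' =>
    hXcl 0 [α, ξ] (hmem2 α hα ξ hξ) ((hg1 α (hX hα) ξ hξ').trans K2_lt_K3)
  have hXΔ : ∀ α ∈ X, ∀ β ∈ X, α ≠ β → Δ α β ∈ X := fun α hα β hβ hne =>
    hXcl 1 [α, β] (hmem2 α hα β hβ) ((hΔ1 α (hX hα) β (hX hβ) hne).trans K1_lt_K3)
  have hXg2 : ∀ α ∈ X, ∀ a ∈ X, a < K2 κ → g2 α a ∈ X := fun α hα a ha ha' =>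
    hXcl 2 [α, a] (hmem2 α hα a ha) ((g2_lt hκ0 a ha' α).trans K2_lt_K3)
  have hXF2 : ∀ α ∈ X, ∀ β ∈ X, Fr2 α β ∈ X := fun α hα β hβ =>
    hXcl 3 [α, β] (hmem2 α hα β hβ) ((hFr21 α β).trans K2_lt_K3)
  have hXFr : ∀ α ∈ X, ∀ γ ∈ X, ∀ β ∈ X, Fr α γ β ∈ X := fun α hα γ hγ β hβ =>
    hXcl 4 [α, γ, β] (hmem3 α hα γ hγ β hβ) ((hFr1 α γ β).trans K1_lt_K3)
  have hXrk : ∀ α ∈ X, ∀ β ∈ X, β < α → rk α β ∈ X := fun α hα β hβ hlt =>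
    closed_rk hXφ α hα β hβ (hX hα) hlt
  obtain ⟨δ, hδ1, hδ2, hδ3, hδ4⟩ := exists_delta hκ0 (closed_en hXφ) (closed_succ hκ0 hXφ) hX2 hX3
  have hint : X ∩ Set.Iio (K1 κ) = Set.Iio δ := by
    ext a
    exact hδ2 a
  have hcof : Cardinal.aleph0 < δ.cof := by
    by_contra hcon
    rw [not_lt] at hcon
    have hpos : 0 < δ := hκ.ord_pos.trans_le hδ4
    obtain ⟨c, hc1, hc2⟩ := exists_seq hpos hcon
    rcases hor with h1 | h1
    · exact no_countable_cof' h1 hX hX1 hX2 hδ2 c hc1 hc2 g hg1 hXg Δ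
        (fun α hα β hβ hne => hΔ1 α hα β hβ hne) hXΔ (fun α hα β hβ hne => hΔ2 α hα β hβ hne)
    · exact no_countable_cof hκ hκ' h1 hX hX1 hX2 hδ2 c hc1 hc2 g hg1 hXg Fr hFr1 hXFr
        (fun α hα γ hγ => hFr2 α γ hα hγ) hXrk
        (trace_directed hκ hX hX1 hX2 Fr2 hFr21 (fun α hα => hFr22 α hα) hXg2 hXF2)
  refine ⟨X, hX, closed_f hf hX hXφ, hX1, hX2, hX3, ?_⟩
  rw [hint]
  have hlim : Order.IsSuccLimit δ := by
    rw [← Ordinal.one_lt_cof_iff]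
    exact Cardinal.one_lt_aleph0.trans hcof
  rw [hlim.sSup_Iio]
  exact hcof

end Pool.Agent.Lib53.Chang
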