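import Mathlib
import Pool.Agent.Lib_helper53.Chang.CaseB

set_option autoImplicit false

/-!
Consequences of `2 ^ κ ≤ κ⁺⁺`, and functions into `κ` separated modulo clubs.
-/

namespace Pool.Agent.Lib53.Chang

open Cardinal Ordinal Set

theorem dom_of_pow {κ : Cardinal.{0}} (hκ : Cardinal.aleph0 ≤ κ)
    (h : (2 : Cardinal.{0}) ^ (Order.succ κ) ≤ Order.succ (Order.succ κ)) : DomNumberLe κ := by
  classical
  have h1 : Cardinal.mk (Set.Iio (K1 κ) → Set.Iio (K1 κ)) ≤ Cardinal.mk (Set.Iio (K2 κ)) := by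
    rw [Cardinal.mk_arrow, Cardinal.lift_id, Cardinal.mk_Iio_ordinal, Cardinal.mk_Iio_ordinal,
      Cardinal.card_ord, Cardinal.card_ord, ← Cardinal.lift_power, Cardinal.lift_le,
      Cardinal.power_self_eq (hκ.trans (Order.le_succ κ))]
    exact h
  obtain ⟨j⟩ := Cardinal.le_def _ _ |>.1 h1
  refine ⟨fun i ξ => if hi : ∃ u, (j u).1 = i ∧ ξ < K1 κ then (hi.choose ⟨ξ, hi.choose_spec.2⟩).1
    else 0, ?_, ?_⟩
  · intro i _ ξ hξ
    dsimp only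
    split_ifs with hi
    · exact (hi.choose ⟨ξ, hi.choose_spec.2⟩).2
    · exact (reg1 hκ).ord_pos
  · intro f hf
    set u : Set.Iio (K1 κ) → Set.Iio (K1 κ) := fun ξ => ⟨f ξ.1, hf ξ.1 ξ.2⟩ with hu
    refine ⟨(j u).1, (j u).2, 0, (reg1 hκ).ord_pos, ?_⟩
    intro ξ _ hξ
    have hi : ∃ v, (j v).1 = (j u).1 ∧ ξ < K1 κ := ⟨u, rfl, hξ⟩
    dsimp only
    rw [dif_pos hi]
    have h2 : hi.choose = u := j.injective (Subtype.ext hi.choose_spec.1)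
    have h3 : ∀ (v : Set.Iio (K1 κ) → Set.Iio (K1 κ)) (p : ξ < K1 κ), v = u →
        f ξ ≤ (v ⟨ξ, p⟩).1 := by
      rintro v p rfl
      exact le_rfl
    exact h3 _ _ h2

theorem ed_of_pow {κ : Cardinal.{0}} (hκ : Cardinal.aleph0 ≤ κ)
    (h : (2 : Cardinal.{0}) ^ κ ≤ Order.succ (Order.succ κ))
    (h' : Order.succ (Order.succ κ) < (2 : Cardinal.{0}) ^ (Order.succ κ)) : EvDiff κ := by
  classical
  have h1 : Cardinal.mk (Set.Iio (K3 κ)) ≤ Cardinal.mk (Set (Set.Iio (K1 κ))) := by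
    rw [Cardinal.mk_set, Cardinal.mk_Iio_ordinal, Cardinal.mk_Iio_ordinal,
      Cardinal.card_ord, Cardinal.card_ord, ← Cardinal.lift_two_power, Cardinal.lift_le]
    exact Order.succ_le_of_lt h'
  obtain ⟨a⟩ := Cardinal.le_def _ _ |>.1 h1
  -- codes of the initial segments
  have h2 : ∀ ξ : Ordinal.{0}, ∃ cd : Set (Set.Iio (K1 κ)) → Ordinal.{0}, ξ < K1 κ →
      ((∀ A, cd A < K2 κ) ∧ ∀ A A', cd A = cd A' → ∀ x : Set.Iio (K1 κ), x.1 < ξ →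
        (x ∈ A ↔ x ∈ A')) := by
    intro ξ
    by_cases hξ : ξ < K1 κ
    · have h3 : Cardinal.mk (Set (Set.Iio ξ)) ≤ Cardinal.mk (Set.Iio (K2 κ)) := by
        rw [Cardinal.mk_set, Cardinal.mk_Iio_ordinal, Cardinal.mk_Iio_ordinal,
          Cardinal.card_ord, ← Cardinal.lift_two_power, Cardinal.lift_le]
        exact (Cardinal.power_le_power_left two_ne_zero (card_le_of_lt_K1 hξ)).trans h
      obtain ⟨e⟩ := Cardinal.le_def _ _ |>.1 h3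
      refine ⟨fun A => (e {x : Set.Iio ξ | (⟨x.1, lt_trans x.2 hξ⟩ : Set.Iio (K1 κ)) ∈ A}).1,
        fun _ => ⟨fun A => (e _).2, ?_⟩⟩
      intro A A' hAA x hx
      have h4 := e.injective (Subtype.ext hAA)
      have h5 := Set.ext_iff.1 h4 ⟨x.1, hx⟩
      exact h5
    · exact ⟨fun _ => 0, fun h => absurd h hξ⟩
  choose cd hcd using h2
  refine ⟨fun α ξ => if hα : α < K3 κ then cd ξ (a ⟨α, hα⟩) else 0, ?_, ?_⟩
  · intro α hα ξ hξ
    dsimp only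
    rw [dif_pos hα]
    exact (hcd ξ hξ).1 _
  · intro α hα β hβ hne
    have h3 : a ⟨α, hα⟩ ≠ a ⟨β, hβ⟩ := fun h => hne (congrArg Subtype.val (a.injective h))
    have h4 : ∃ x : Set.Iio (K1 κ), ¬ (x ∈ a ⟨α, hα⟩ ↔ x ∈ a ⟨β, hβ⟩) := by
      by_contra hcon
      push Not at hcon
      exact h3 (Set.ext hcon)
    obtain ⟨x, hx⟩ := h4
    refine ⟨x.1 + 1, succ_lt_K1 hκ x.2, ?_⟩
    intro ξ h5 hξ h6
    dsimp only at h6
    rw [dif_pos hα, dif_pos hβ] at h6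
    exact hx ((hcd ξ hξ).2 _ _ h6 x (lt_of_lt_of_le (lt_add_one _) h5))

theorem dom_or_ed {κ : Cardinal.{0}} (hκ : Cardinal.aleph0 ≤ κ)
    (h : (2 : Cardinal.{0}) ^ κ ≤ Order.succ (Order.succ κ)) : DomNumberLe κ ∨ EvDiff κ := by
  rcases le_or_gt ((2 : Cardinal.{0}) ^ (Order.succ κ)) (Order.succ (Order.succ κ)) with h1 | h1
  · exact Or.inl (dom_of_pow hκ h1)
  · exact Or.inr (ed_of_pow hκ h h1)

/-! ### Functions into `κ` which are separated modulo clubs -/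

/-- there are `κ⁺⁺⁺` functions from `κ⁺` to `κ` which pairwise differ on `S ∩ C` for some
club `C` (the points closed under some function `d`) -/
def Sep (κ : Cardinal.{0}) (S : Ordinal.{0} → Prop) : Prop :=
  ∃ F : Ordinal.{0} → Ordinal.{0} → Ordinal.{0},
    (∀ α < K3 κ, ∀ ξ < K1 κ, F α ξ < κ.ord) ∧
    ∀ α < K3 κ, ∀ β < K3 κ, α ≠ β → ∃ d : Ordinal.{0} → Ordinal.{0},
      (∀ ζ < K1 κ, d ζ < K1 κ) ∧
      ∀ ξ < K1 κ, S ξ → (∀ ζ < ξ, d ζ < ξ) → F α ξ ≠ F β ξ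

/-- a Chang set closed under the separating functions has its trace outside `S` -/
theorem Sep.trace {κ : Cardinal.{0}} {X : Set Ordinal.{0}} (hX : X ⊆ Set.Iio (K3 κ))
    (hX1 : Cardinal.mk X = Cardinal.lift.{1} (Order.succ κ))
    {δ : Ordinal.{0}} (hδ1 : δ < K1 κ) (hδ : ∀ a, (a ∈ X ∧ a < K1 κ) ↔ a < δ)
    {S : Ordinal.{0} → Prop} (F : Ordinal.{0} → Ordinal.{0} → Ordinal.{0})
    (hF : ∀ α < K3 κ, ∀ ξ < K1 κ, F α ξ < κ.ord)
    (d : Ordinal.{0} → Ordinal.{0} → Ordinal.{0} → Ordinal.{0})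
    (hd1 : ∀ α < K3 κ, ∀ β < K3 κ, α ≠ β → ∀ ζ < K1 κ, d α β ζ < K1 κ)
    (hd2 : ∀ α < K3 κ, ∀ β < K3 κ, α ≠ β → 
      ∀ ξ < K1 κ, S ξ → (∀ ζ < ξ, d α β ζ < ξ) → F α ξ ≠ F β ξ)
    (hXd : ∀ α ∈ X, ∀ β ∈ X, α ≠ β → ∀ ζ ∈ X, ζ < K1 κ → d α β ζ ∈ X) : ¬ S δ := by
  intro hS
  have h1 : Cardinal.mk X ≤ Cardinal.mk (Set.Iio κ.ord) := by
    refine Cardinal.mk_le_of_injective (f := fun α => ⟨F α.1 δ, hF α.1 (hX α.2) δ hδ1⟩) ?_
    intro α β h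
    by_contra hne
    have hne' : α.1 ≠ β.1 := fun h => hne (Subtype.ext h)
    simp only [Subtype.mk.injEq] at h
    refine hd2 α.1 (hX α.2) β.1 (hX β.2) hne' δ hδ1 hS ?_ h
    intro ζ hζ
    obtain ⟨h2, h3⟩ := (hδ ζ).2 hζ
    exact (hδ _).1 ⟨hXd α.1 α.2 β.1 β.2 hne' ζ h2 h3, hd1 α.1 (hX α.2) β.1 (hX β.2) hne' ζ h3⟩
  rw [hX1, Cardinal.mk_Iio_ordinal, Cardinal.card_ord, Cardinal.lift_le] at h1
  exact absurd h1 (not_le.2 (Order.lt_succ κ))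

/-- all Chang sets closed under suitable functions have a trace with cofinality in the given class -/
theorem Sep.pos {κ : Cardinal.{0}} (hκ : Cardinal.aleph0 ≤ κ) 
    (hS : Sep κ (fun ξ => ξ.cof = Cardinal.aleph0)) (h : CC κ) : CCcof κ := by
  classical
  obtain ⟨F, hF1, hF2⟩ := hS
  choose! d hd1 hd2 using hF2
  intro f hf
  obtain ⟨X, hX, hXcl, hX1, hX2, hX3⟩ := h.list hκ (fun n l => match n, l with
    | 0, [α, β, ζ] => d α β ζ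
    | (n + 1), l => stdF κ f n l
    | _, _ => 0)
  have hXφ : ∀ n l, (∀ a ∈ l, a ∈ X) → stdF κ f n l ∈ X := fun n l hl =>
    hXcl (n + 1) l hl (stdF_lt hκ f n l)
  have hmem3 : ∀ α ∈ X, ∀ β ∈ X, ∀ γ ∈ X, ∀ a ∈ [α, β, γ], a ∈ X := by
    intro α hα β hβ γ hγ a ha
    simp only [List.mem_cons, List.not_mem_nil, or_false] at ha
    rcases ha with rfl | rfl | rfl
    · exact hα
    · exact hβ
    · exact hγ
  have hXd : ∀ α ∈ X, ∀ β ∈ X, α ≠ β → ∀ ζ ∈ X, ζ < K1 κ → d α β ζ ∈ X :=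
    fun α hα β hβ hne ζ hζ hζ' => hXcl 0 [α, β, ζ] (hmem3 α hα β hβ ζ hζ)
      ((hd1 α (hX hα) β (hX hβ) hne ζ hζ').trans K1_lt_K3)
  obtain ⟨δ, hδ1, hδ2, hδ3, hδ4⟩ := exists_delta hκ (closed_en hXφ) (closed_succ hκ hXφ) hX2 hX3
  have hint : X ∩ Set.Iio (K1 κ) = Set.Iio δ := by
    ext a
    exact hδ2 a
  have hlim : Order.IsSuccLimit δ := by
    have h0 : (0 : Ordinal.{0}) < δ := by
      refine lt_of_lt_of_le ?_ hδ4
      rw [Cardinal.lt_ord, Ordinal.card_zero]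
      exact Cardinal.aleph0_pos.trans_le hκ
    rw [Ordinal.isSuccLimit_iff]
    exact ⟨h0.ne', Order.isSuccPrelimit_of_succ_lt hδ3⟩
  have hcof : Cardinal.aleph0 < δ.cof := by
    have h1 : Cardinal.aleph0 ≤ δ.cof := by
      rw [Ordinal.aleph0_le_cof_iff, Ordinal.one_lt_cof_iff]
      exact hlim
    refine lt_of_le_of_ne h1 (fun h2 => ?_)
    exact Sep.trace hX hX1 hδ1 hδ2 F hF1 d (fun α hα β hβ hne => hd1 α hα β hβ hne)
      (fun α hα β hβ hne => hd2 α hα β hβ hne) hXd h2.symm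
  refine ⟨X, hX, closed_f hf hX hXφ, hX1, hX2, hX3, ?_⟩
  rw [hint, hlim.sSup_Iio]
  exact hcof

/-- with separation at points of uncountable cofinality the conclusion fails -/
theorem Sep.neg {κ : Cardinal.{0}} (hκ : Cardinal.aleph0 ≤ κ) 
    (hS : Sep κ (fun ξ => Cardinal.aleph0 < ξ.cof)) : ¬ CCcof κ := by
  classical
  obtain ⟨F, hF1, hF2⟩ := hS
  choose! d hd1 hd2 using hF2
  intro h
  obtain ⟨X, hX, hXcl, hX1, hX2, hX3, hX4⟩ := list_of hκ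
    (Q := fun X => Cardinal.mk X = Cardinal.lift.{1} (Order.succ κ) ∧
      Cardinal.mk ↥(X ∩ Set.Iio (K2 κ)) = Cardinal.lift.{1} κ ∧
      Set.Iio κ.ord ⊆ X ∧ Cardinal.aleph0 < Ordinal.cof (sSup (X ∩ Set.Iio (K1 κ))))
    (fun X hX => hX.2.2.1) h (fun n l => match n, l with
    | 0, [α, β, ζ] => d α β ζ
    | (n + 1), l => stdF κ (fun _ => 0) n l
    | _, _ => 0)
  have hXφ : ∀ n l, (∀ a ∈ l, a ∈ X) → stdF κ (fun _ => 0) n l ∈ X := fun n l hl =>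
    hXcl (n + 1) l hl (stdF_lt hκ _ n l)
  have hmem3 : ∀ α ∈ X, ∀ β ∈ X, ∀ γ ∈ X, ∀ a ∈ [α, β, γ], a ∈ X := by
    intro α hα β hβ γ hγ a ha
    simp only [List.mem_cons, List.not_mem_nil, or_false] at ha
    rcases ha with rfl | rfl | rfl
    · exact hα
    · exact hβ
    · exact hγ
  have hXd : ∀ α ∈ X, ∀ β ∈ X, α ≠ β → ∀ ζ ∈ X, ζ < K1 κ → d α β ζ ∈ X :=
    fun α hα β hβ hne ζ hζ hζ' => hXcl 0 [α, β, ζ] (hmem3 α hα β hβ ζ hζ)
      ((hd1 α (hX hα) β (hX hβ) hne ζ hζ').trans K1_lt_K3)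
  obtain ⟨δ, hδ1, hδ2, hδ3, hδ4⟩ := exists_delta hκ (closed_en hXφ) (closed_succ hκ hXφ) hX2 hX3
  have hint : X ∩ Set.Iio (K1 κ) = Set.Iio δ := by
    ext a
    exact hδ2 a
  have hlim : Order.IsSuccPrelimit δ := Order.isSuccPrelimit_of_succ_lt hδ3
  rw [hint, hlim.sSup_Iio] at hX4
  exact Sep.trace hX hX1 hδ1 hδ2 F hF1 d (fun α hα β hβ hne => hd1 α hα β hβ hne)
      (fun α hα β hβ hne => hd2 α hα β hβ hne) hXd hX4

end Pool.Agent.Lib53.Chang
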