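import Mathlib
import Pool.Agent.Lib_helper53.Chang.Pow

set_option autoImplicit false

/-!
Increasing chains of functions.
-/

namespace Pool.Agent.Lib53.Chang

open Cardinal Ordinal Set

/-- there is a chain of length `κ⁺⁺⁺` of functions from `κ⁺` to `κ⁺⁺`, strictly increasing modulo
bounded sets -/
def ChainUp (κ : Cardinal.{0}) : Prop :=
  ∃ g : Ordinal.{0} → Ordinal.{0} → Ordinal.{0},
    (∀ α < K3 κ, ∀ ξ < K1 κ, g α ξ < K2 κ) ∧
    ∀ α < K3 κ, ∀ β < α, ∃ Δ < K1 κ, ∀ ξ, Δ ≤ ξ → ξ < K1 κ → g β ξ < g α ξ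

/-- there is a chain of length `κ⁺` of functions from `ω` to `κ`, strictly increasing modulo
finite sets -/
def OmegaChain (κ : Cardinal.{0}) : Prop :=
  ∃ v : Ordinal.{0} → ℕ → Ordinal.{0},
    (∀ i < K1 κ, ∀ n, v i n < κ.ord) ∧
    ∀ i < K1 κ, ∀ j < i, ∃ N : ℕ, ∀ n, N ≤ n → v j n < v i n

/-- rank function of a set of ordinals -/
noncomputable def tau (E : Set Ordinal.{0}) (w : Ordinal.{0}) : Ordinal.{0} :=
  ⨆ x : {x : Ordinal.{0} // x ∈ E ∧ x < w}, tau E x.1 + 1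
termination_by w
decreasing_by exact x.2.2

instance (E : Set Ordinal.{0}) (w : Ordinal.{0}) :
    Small.{0} {x : Ordinal.{0} // x ∈ E ∧ x < w} := by
  have : Small.{0} (Set.Iio w) := inferInstance
  exact small_subset (t := {x : Ordinal.{0} | x ∈ E ∧ x < w}) (s := Set.Iio w)
    (fun x (hx : x ∈ E ∧ x < w) => hx.2)

theorem tau_lt {E : Set Ordinal.{0}} {x w : Ordinal.{0}} (hx : x ∈ E) (h : x < w) :
    tau E x < tau E w := by
  rw [tau.eq_1 E w]
  refine (lt_add_one _).trans_le ?_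
  exact le_ciSup (f := fun x : {x : Ordinal.{0} // x ∈ E ∧ x < w} => tau E x.1 + 1)
    (Ordinal.bddAbove_of_small) ⟨x, hx, h⟩

theorem tau_bound {κ : Cardinal.{0}} (hκ : κ.IsRegular) {E : Set Ordinal.{0}}
    (hE : Cardinal.mk E < Cardinal.lift.{1} κ) : ∀ w, tau E w < κ.ord := by
  intro w
  induction w using WellFoundedLT.induction with
  | ind w ih =>
    rw [tau.eq_1]
    apply Ordinal.lift_iSup_lt_of_lt_cof
    · rw [← Ordinal.lift_cof, hκ.cof_ord, Cardinal.lift_uzero]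
      refine lt_of_le_of_lt ?_ hE
      refine Cardinal.mk_le_of_injective (f := fun x => ⟨x.1, x.2.1⟩) ?_
      intro x y hxy
      simp only [Subtype.mk.injEq] at hxy
      exact Subtype.ext hxy
    · rintro ⟨x, hx, hx'⟩
      exact (Cardinal.isSuccLimit_ord hκ.aleph0_le).add_one_lt (ih x hx')

/-- a set of ordinals of size at least `κ⁺` contains an increasing `κ⁺`-sequence -/
theorem exists_increasing {c : Cardinal.{0}} (I : Set Ordinal.{0})
    (hI : Cardinal.lift.{1} c ≤ Cardinal.mk I) :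
    ∃ φ : Ordinal.{0} → Ordinal.{0}, (∀ i < c.ord, φ i ∈ I) ∧
      ∀ i < c.ord, ∀ j < i, φ j < φ i := by
  classical
  have h1 : Ordinal.type (α := Set.Iio c.ord) (· < ·) ≤ Ordinal.type (α := I) (· < ·) := by
    have h2 : Ordinal.type (α := Set.Iio c.ord) (· < ·) = Ordinal.lift.{1} c.ord := by
      simpa using Ordinal.type_Iio c.ord
    rw [h2, Cardinal.lift_ord, Cardinal.ord_le, Ordinal.card_type]
    exact hI
  obtain ⟨e⟩ := Ordinal.type_le_iff'.1 h1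
  refine ⟨fun i => if hi : i < c.ord then (e ⟨i, hi⟩).1 else 0, ?_, ?_⟩
  · intro i hi
    dsimp only
    rw [dif_pos hi]
    exact (e ⟨i, hi⟩).2
  · intro i hi j hj
    dsimp only
    rw [dif_pos hi, dif_pos (hj.trans hi)]
    exact e.map_rel_iff.2 (show (⟨j, hj.trans hi⟩ : Set.Iio c.ord) < ⟨i, hi⟩ from hj)

/-- cofinal nondecreasing sequence -/
theorem exists_seq_mono {δ : Ordinal.{0}} (h0 : 0 < δ) (h : Ordinal.cof δ ≤ Cardinal.aleph0) :
    ∃ c : ℕ → Ordinal.{0}, (∀ n, c n < δ) ∧ Monotone c ∧ ∀ a < δ, ∃ n, a ≤ c n := by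
  obtain ⟨c, hc1, hc2⟩ := exists_seq h0 h
  refine ⟨partialSups c, ?_, (partialSups c).monotone, ?_⟩
  · intro n
    induction n with
    | zero => simpa using hc1 0
    | succ n ih =>
      rw [partialSups_add_one]
      exact max_lt ih (hc1 (n + 1))
  · intro a ha
    obtain ⟨n, hn⟩ := hc2 a ha
    exact ⟨n, hn.trans (le_partialSups c n)⟩

theorem caseC {κ : Cardinal.{0}} (hκ : κ.IsRegular) (hκ' : Cardinal.aleph0 < κ)
    (hg : ChainUp κ) (hno : ¬ OmegaChain κ) (h : CC κ) : CCcof κ := by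
  classical
  have hκ0 := hκ.aleph0_le
  obtain ⟨g, hg1, hg2⟩ := hg
  choose! Δ hΔ1 hΔ2 using hg2
  intro f hf
  obtain ⟨X, hX, hXcl, hX1, hX2, hX3⟩ := h.list hκ0 (fun n l => match n, l with
    | 0, [α, ξ] => g α ξ
    | 1, [α, β] => Δ α β
    | (n + 2), l => stdF κ f n l
    | _, _ => 0)
  have hXφ : ∀ n l, (∀ a ∈ l, a ∈ X) → stdF κ f n l ∈ X := fun n l hl =>
    hXcl (n + 2) l hl (stdF_lt hκ0 f n l)
  have hmem2 : ∀ α ∈ X, ∀ β ∈ X, ∀ a ∈ [α, β], a ∈ X := by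
    intro α hα β hβ a ha
    simp only [List.mem_cons, List.not_mem_nil, or_false] at ha
    rcases ha with rfl | rfl
    · exact hα
    · exact hβ
  have hXg : ∀ α ∈ X, ∀ ξ ∈ X, ξ < K1 κ → g α ξ ∈ X := fun α hα ξ hξ hξ' =>
    hXcl 0 [α, ξ] (hmem2 α hα ξ hξ) ((hg1 α (hX hα) ξ hξ').trans K2_lt_K3)
  have hXΔ : ∀ α ∈ X, ∀ β ∈ X, β < α → Δ α β ∈ X := fun α hα β hβ hlt =>
    hXcl 1 [α, β] (hmem2 α hα β hβ) ((hΔ1 α (hX hα) β hlt).trans K1_lt_K3)
  obtain ⟨δ, hδ1, hδ2, hδ3, hδ4⟩ := exists_delta hκ0 (closed_en hXφ) (closed_succ hκ0 hXφ) hX2 hX3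
  have hint : X ∩ Set.Iio (K1 κ) = Set.Iio δ := by
    ext a
    exact hδ2 a
  have hcof : Cardinal.aleph0 < δ.cof := by
    by_contra hcon
    rw [not_lt] at hcon
    have hpos : 0 < δ := hκ.ord_pos.trans_le hδ4
    obtain ⟨c, hc1, hcm, hc2⟩ := exists_seq_mono hpos hcon
    have hcX : ∀ n, c n ∈ X ∧ c n < K1 κ := fun n => (hδ2 _).2 (hc1 n)
    have hv : ∀ β ∈ X, ∀ n, g β (c n) ∈ X ∩ Set.Iio (K2 κ) := fun β hβ n =>
      ⟨hXg β hβ _ (hcX n).1 (hcX n).2, hg1 β (hX hβ) _ (hcX n).2⟩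
    obtain ⟨ρ, hρ1, hρ2⟩ := exists_rho (W := X ∩ Set.Iio (K2 κ)) hX2.le
    have hb : ∀ β, ∃ b, β ∈ X → (b < κ.ord ∧ ∀ n, ρ (g β (c n)) < b) := by
      intro β
      by_cases hβ : β ∈ X
      · obtain ⟨b, hb, hb'⟩ := exists_bound hκ (Set.range (fun n => ρ (g β (c n)))) (by
          refine lt_of_le_of_lt (Cardinal.le_aleph0_iff_set_countable.2
            (Set.countable_range _)) ?_
          rw [← Cardinal.lift_aleph0.{1, 0}]
          exact Cardinal.lift_lt.2 hκ') (by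
          rintro _ ⟨n, rfl⟩
          exact hρ1 _ (hv β hβ n))
        exact ⟨b, fun _ => ⟨hb, fun n => hb' _ ⟨n, rfl⟩⟩⟩
      · exact ⟨0, fun h => absurd h hβ⟩
    choose b hb using hb
    obtain ⟨t, ht, hI⟩ := pigeon (reg1 hκ0).lift (A := X) hX1.ge (Set.Iio κ.ord) (by
      rw [Cardinal.mk_Iio_ordinal, Cardinal.card_ord, Cardinal.lift_lt]
      exact Order.lt_succ κ) b (fun a ha => (hb a ha).1)
    set I : Set Ordinal.{0} := {a | a ∈ X ∧ b a = t} with hIdef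
    set E : Set Ordinal.{0} := {w | w ∈ X ∩ Set.Iio (K2 κ) ∧ ρ w < t} with hEdef
    have hE : Cardinal.mk E < Cardinal.lift.{1} κ := by
      have h1 : Cardinal.mk E ≤ Cardinal.mk (Set.Iio t) := by
        refine Cardinal.mk_le_of_injective (f := fun x => ⟨ρ x.1, x.2.2⟩) ?_
        intro x y hxy
        simp only [Subtype.mk.injEq] at hxy
        exact Subtype.ext (hρ2 x.2.1 y.2.1 hxy)
      refine lt_of_le_of_lt h1 ?_
      rw [Cardinal.mk_Iio_ordinal, Cardinal.lift_lt]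
      exact Cardinal.lt_ord.1 ht
    have hIE : ∀ β ∈ I, ∀ n, g β (c n) ∈ E := by
      rintro β ⟨hβ, hβ'⟩ n
      have h1 := (hb β hβ).2 n
      rw [hβ'] at h1
      exact ⟨hv β hβ n, h1⟩
    obtain ⟨φ, hφ1, hφ2⟩ := exists_increasing I hI
    refine hno ⟨fun i n => tau E (g (φ i) (c n)), fun i _ n => tau_bound hκ hE _, ?_⟩
    intro i hi j hj
    have h1 := hφ1 i hi
    have h2 := hφ1 j (hj.trans hi)
    have h3 := hφ2 i hi j hj
    have h4 := hΔ1 (φ i) (hX h1.1) (φ j) h3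
    obtain ⟨N, hN⟩ := hc2 _ ((hδ2 _).1 ⟨hXΔ (φ i) h1.1 (φ j) h2.1 h3, h4⟩)
    refine ⟨N, fun n hn => ?_⟩
    have h5 := hΔ2 (φ i) (hX h1.1) (φ j) h3 (c n) (hN.trans (hcm hn)) (hcX n).2
    exact tau_lt (hIE (φ j) h2 n) h5
  refine ⟨X, hX, closed_f hf hX hXφ, hX1, hX2, hX3, ?_⟩
  rw [hint]
  have hlim : Order.IsSuccLimit δ := by
    rw [← Ordinal.one_lt_cof_iff]
    exact Cardinal.one_lt_aleph0.trans hcof
  rw [hlim.sSup_Iio]
  exact hcof

end Pool.Agent.Lib53.Chang
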